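import Pool.Agent.H76.PT.Tern

set_option autoImplicit false

/-!
The binary problem: from exponential sums to the number of the solutions, for almost all integers.
-/

namespace Pool.Agent.H76.PB

open Finset
open Pool.Agent.H807R2.Dav (ee norm_ee ee_add)
open Pool.Agent.H76.PT (TR mem_TR tern3)

/-- the phase -/
noncomputable def ph (w : ℂ) : ℂ := (starRingEnd ℂ) w / (‖w‖ : ℂ)

lemma ph_norm (w : ℂ) : ‖ph w‖ ≤ 1 := by
  unfold ph
  rw [norm_div, RCLike.norm_conj, Complex.norm_real, norm_norm]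
  exact div_self_le_one _

lemma ph_mul (w : ℂ) : ph w * w = (‖w‖ : ℂ) := by
  unfold ph
  by_cases h : w = 0
  · rw [h]; simp
  · have h1 : (‖w‖ : ℂ) ≠ 0 := by
      rw [Complex.ofReal_ne_zero]
      exact norm_ne_zero_iff.2 h
    rw [div_mul_eq_mul_div, div_eq_iff h1, ← Complex.normSq_eq_conj_mul_self, Complex.normSq_eq_norm_sq]
    push_cast
    ring

/-- the solutions of `n + n' = m` with `1 ≤ n, n' ≤ X` -/
def pa (X m : ℕ) : Finset ℕ := Icc (m - 1 - X + 1) (min X (m - 1))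

lemma mem_pa {X m n : ℕ} : n ∈ pa X m ↔ (1 ≤ n ∧ n ≤ X) ∧ n < m ∧ m ≤ X + n := by
  unfold pa
  rw [mem_Icc]
  omega

lemma TR_fib (X : ℕ) (u v c : ℕ → ℂ) :
    ∑ t ∈ TR (2 * X) (2 * X + 1), (if t.1 ≤ X then u t.1 else 0) * (if t.2 ≤ X then v t.2 else 0) *
        c (2 * X + 1 - (2 * X + 1 - t.1 - t.2)) =
      ∑ m ∈ Icc 1 (2 * X), c m * ∑ n ∈ pa X m, u n * v (m - n) := by
  have e1 : ∀ m ∈ Icc 1 (2 * X), c m * ∑ n ∈ pa X m, u n * v (m - n) = ∑ n ∈ pa X m, (u n * v (m - n)) * c m := by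
    intro m _
    rw [mul_sum]
    exact sum_congr rfl fun n _ => by ring
  rw [sum_congr rfl e1, sum_sigma']
  have e2 : ∑ t ∈ TR (2 * X) (2 * X + 1), (if t.1 ≤ X then u t.1 else 0) * (if t.2 ≤ X then v t.2 else 0) *
        c (2 * X + 1 - (2 * X + 1 - t.1 - t.2)) =
      ∑ t ∈ (TR (2 * X) (2 * X + 1)).filter (fun t => t.1 ≤ X ∧ t.2 ≤ X), u t.1 * v t.2 * c (2 * X + 1 - (2 * X + 1 - t.1 - t.2)) := by
    rw [sum_filter]
    refine sum_congr rfl fun t _ => ?_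
    by_cases h1 : t.1 ≤ X <;> by_cases h2 : t.2 ≤ X <;> simp [h1, h2]
  rw [e2]
  refine sum_bij' (fun t _ => (⟨t.1 + t.2, t.1⟩ : (_ : ℕ) × ℕ)) (fun s _ => (s.2, s.1 - s.2)) ?_ ?_ ?_ ?_ ?_
  · intro t ht
    rw [mem_filter, mem_TR] at ht
    rw [mem_sigma, mem_pa, mem_Icc]
    dsimp only
    omega
  · rintro ⟨m, n⟩ hs
    rw [mem_sigma, mem_pa, mem_Icc] at hs
    rw [mem_filter, mem_TR]
    dsimp only at hs ⊢
    omega
  · intro t ht
    rw [mem_filter, mem_TR] at ht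
    obtain ⟨x, y⟩ := t
    refine Prod.ext rfl ?_
    show x + y - x = y
    omega
  · rintro ⟨m, n⟩ hs
    rw [mem_sigma, mem_pa, mem_Icc] at hs
    dsimp only at hs ⊢
    simp only [Sigma.mk.injEq, heq_eq_eq, and_true]
    omega
  · intro t ht
    rw [mem_filter, mem_TR] at ht
    obtain ⟨x, y⟩ := t
    dsimp only at ht ⊢
    have h1 : 2 * X + 1 - (2 * X + 1 - x - y) = x + y := by omega
    have h2 : x + y - x = y := by omega
    rw [h1, h2]

/-- almost all `m` -/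
theorem bin (X : ℕ) (u v : Fin 2 → ℕ → ℂ) (C T G : ℝ) (hC : 1 ≤ C) (hT : 0 ≤ T)
    (hu : ∀ r, ∀ n ∈ Icc 1 X, ‖u r n‖ ≤ C) (hv : ∀ r, ∀ n ∈ Icc 1 X, ‖v r n‖ ≤ C)
    (h : ∀ r, ∀ α : ℝ, ‖∑ n ∈ Icc 1 X, (u r n - v r n) * ee ((n : ℝ) * α)‖ ≤ T) :
    ∃ E ⊆ Icc 1 (2 * X), G * E.card ≤ 3 * (T * ((2 * X) * C ^ 2)) ∧ ∀ m ∈ Icc 1 (2 * X), m ∉ E →
      ‖∑ n ∈ pa X m, u 0 n * u 1 (m - n) - ∑ n ∈ pa X m, v 0 n * v 1 (m - n)‖ ≤ G := by
  classical
  set D : ℕ → ℂ := fun m => ∑ n ∈ pa X m, u 0 n * u 1 (m - n) - ∑ n ∈ pa X m, v 0 n * v 1 (m - n) with hD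
  set E : Finset ℕ := (Icc 1 (2 * X)).filter (fun m => ¬ ‖D m‖ ≤ G) with hE
  refine ⟨E, filter_subset _ _, ?_, ?_⟩
  swap
  · intro m hm hmE
    by_contra hcon
    exact hmE (mem_filter.2 ⟨hm, hcon⟩)
  set c : ℕ → ℂ := fun m => if m ∈ E then ph (D m) else 0 with hc
  have hcn : ∀ m, ‖c m‖ ≤ C := by
    intro m
    rw [hc]
    dsimp only
    split_ifs
    · exact (ph_norm _).trans hC
    · rw [norm_zero]; linarith
  set tr : (ℕ → ℂ) → ℕ → ℂ := fun f n => if n ≤ X then f n else 0 with htr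
  have htn : ∀ f : ℕ → ℂ, (∀ n ∈ Icc 1 X, ‖f n‖ ≤ C) → ∀ n ∈ Icc 1 (2 * X), ‖tr f n‖ ≤ C := by
    intro f hf n hn
    rw [htr]
    dsimp only
    rw [mem_Icc] at hn
    split_ifs with h1
    · exact hf n (mem_Icc.2 ⟨hn.1, h1⟩)
    · rw [norm_zero]; linarith
  have key := tern3 (2 * X) (2 * X + 1) ![tr (u 0), tr (u 1), fun s => c (2 * X + 1 - s)]
    ![tr (v 0), tr (v 1), fun s => c (2 * X + 1 - s)] C T (by linarith) hT
    (by
      intro r
      fin_cases r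
      · exact htn _ (hu 0)
      · exact htn _ (hu 1)
      · intro n _; exact hcn _)
    (by
      intro r
      fin_cases r
      · exact htn _ (hv 0)
      · exact htn _ (hv 1)
      · intro n _; exact hcn _)
    (by
      have hsup : ∀ r : Fin 2, ∀ α : ℝ, ‖∑ n ∈ Icc 1 (2 * X), (tr (u r) n - tr (v r) n) * ee ((n : ℝ) * α)‖ ≤ T := by
        intro r α
        refine le_trans (le_of_eq ?_) (h r α)
        congr 1
        have hsub : Icc 1 X ⊆ Icc 1 (2 * X) := Icc_subset_Icc_right (by omega)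
        rw [← sum_subset hsub]
        · refine sum_congr rfl fun n hn => ?_
          rw [mem_Icc] at hn
          rw [htr]
          dsimp only
          rw [if_pos hn.2, if_pos hn.2]
        · intro n hn hn'
          rw [mem_Icc] at hn hn'
          rw [htr]
          dsimp only
          rw [if_neg (by omega), if_neg (by omega), sub_zero, zero_mul]
      intro r α
      fin_cases r
      · exact hsup 0 α
      · exact hsup 1 α
      · refine le_trans (le_of_eq ?_) hT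
        rw [norm_eq_zero]
        refine sum_eq_zero fun n _ => ?_
        have : (![tr (u 0), tr (u 1), fun s => c (2 * X + 1 - s)] : Fin 3 → ℕ → ℂ) 2 n -
          (![tr (v 0), tr (v 1), fun s => c (2 * X + 1 - s)] : Fin 3 → ℕ → ℂ) 2 n = 0 := sub_self _
        have h2 : ((![tr (u 0), tr (u 1), fun s => c (2 * X + 1 - s)] : Fin 3 → ℕ → ℂ) 2 n -
          (![tr (v 0), tr (v 1), fun s => c (2 * X + 1 - s)] : Fin 3 → ℕ → ℂ) 2 n) * ee ((n : ℝ) * α) = 0 := by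
          rw [this, zero_mul]
        exact h2)
  have e1 := TR_fib X (u 0) (u 1) c
  have e2 := TR_fib X (v 0) (v 1) c
  have key2 : ‖∑ m ∈ Icc 1 (2 * X), c m * ∑ n ∈ pa X m, u 0 n * u 1 (m - n) -
      ∑ m ∈ Icc 1 (2 * X), c m * ∑ n ∈ pa X m, v 0 n * v 1 (m - n)‖ ≤ 3 * (T * ((2 * X : ℕ) * C ^ 2)) := by
    rw [← e1, ← e2]
    exact key
  rw [← sum_sub_distrib] at key2
  have e3 : ∀ m ∈ Icc 1 (2 * X), c m * ∑ n ∈ pa X m, u 0 n * u 1 (m - n) - c m * ∑ n ∈ pa X m, v 0 n * v 1 (m - n) =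
      ((if m ∈ E then ‖D m‖ else 0 : ℝ) : ℂ) := by
    intro m _
    rw [← mul_sub]
    rw [hc]
    dsimp only
    split_ifs
    · exact ph_mul _
    · rw [zero_mul, Complex.ofReal_zero]
  rw [sum_congr rfl e3, ← Complex.ofReal_sum, Complex.norm_real, Real.norm_eq_abs] at key2
  have h5 : G * E.card ≤ ∑ m ∈ Icc 1 (2 * X), (if m ∈ E then ‖D m‖ else 0) := by
    rw [← sum_filter]
    have h6 : (Icc 1 (2 * X)).filter (fun m => m ∈ E) = E := by
      ext m
      rw [mem_filter]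
      constructor
      · exact fun h => h.2
      · exact fun h => ⟨(mem_filter.1 h).1, h⟩
    rw [h6]
    calc G * (E.card : ℝ) = ∑ _m ∈ E, G := by rw [sum_const, nsmul_eq_mul]; ring
      _ ≤ _ := by
        refine sum_le_sum fun m hm => ?_
        have := (mem_filter.1 hm).2
        push Not at this
        exact this.le
  refine h5.trans ((le_abs_self _).trans (key2.trans (le_of_eq ?_)))
  push_cast
  ring

end Pool.Agent.H76.PB
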