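import Pool.Agent.H76.PB.One

set_option autoImplicit false

/-!
Linear forms in one variable with integer coefficients: the main term with the complete singular series.
-/

namespace Pool.Agent.H76.PB

open Finset
open Pool.Agent.E8helper77.GB (ev_log)
open Pool.Agent.H373R2.T7 (pz mem_pz Vz Vz_pos lamz lamz_nonneg Vz_inv_small)
open Pool.Agent.H76.VG (nu2 Per2 nu2_le fund2 Conv card_pf)
open Pool.Agent.H76.PT (Gq Sq Sq_eq Sq_near Sq_upper Sq_lower Sq_nonneg cs cs_mono lowc lowc_pos)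

variable {ι : Type}

/-- the partial products of the singular series -/
noncomputable def S1 (c d : ι → ℤ) (P : Finset ι) (z : ℕ) : ℝ := Sq P.card (Q1 c d P) z

open Classical in
lemma lz_prod1 (z : ℕ) (c d : ι → ℤ) (P : Finset ι) (F : ι → ℕ) (n : ℕ) (hF : ∀ i ∈ P, (F i : ℤ) = c i * n + d i) :
    ∏ i ∈ P, lamz z (F i) = if ∀ p ∈ pz z, ¬ bad c d P p n then ((Vz z)⁻¹) ^ P.card else 0 := by
  have hdvd : ∀ (p : ℕ), ∀ i ∈ P, ((p : ℤ) ∣ c i * n + d i ↔ p ∣ F i) := by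
    intro p i hi
    rw [← hF i hi, Int.natCast_dvd_natCast]
  split_ifs with h
  · rw [← prod_const]
    refine prod_congr rfl fun i hi => ?_
    unfold lamz
    rw [if_pos]
    intro p hp hd
    exact h p hp ⟨i, hi, (hdvd p i hi).2 hd⟩
  · push Not at h
    obtain ⟨p, hp, i, hi, hd⟩ := h
    refine prod_eq_zero hi ?_
    unfold lamz
    rw [if_neg]
    push Not
    exact ⟨p, hp, (hdvd p i hi).1 hd⟩

open Classical in
/-- the number of the unsieved integers of an interval, normalised -/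
noncomputable def NN (c d : ι → ℤ) (P : Finset ι) (z u v : ℕ) : ℝ :=
  ((Vz z)⁻¹) ^ P.card * ((Icc (u + 1) v).filter (fun n : ℕ => ∀ p ∈ pz z, ¬ bad c d P p n)).card

lemma NN_eq (c d : ι → ℤ) (P : Finset ι) (z u v : ℕ) (F : ι → ℕ → ℕ)
    (hF : ∀ n ∈ Icc (u + 1) v, ∀ i ∈ P, (F i n : ℤ) = c i * n + d i) :
    ∑ n ∈ Icc (u + 1) v, ∏ i ∈ P, lamz z (F i n) = NN c d P z u v := by
  classical
  unfold NN
  rw [card_eq_sum_ones ((Icc (u + 1) v).filter (fun n : ℕ => ∀ p ∈ pz z, ¬ bad c d P p n)), Nat.cast_sum, mul_sum, sum_filter]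
  refine sum_congr rfl fun n hn => ?_
  rw [lz_prod1 z c d P (fun i => F i n) n (hF n hn)]
  split_ifs <;> simp

theorem model1 (κ A E : ℕ) : ∃ X₀ : ℕ, ∀ X : ℕ, X₀ ≤ X → ∀ z : ℕ, Real.log X ≤ z → (z : ℝ) ≤ Real.log X ^ E →
    ∀ (ι : Type) (c d : ι → ℤ) (P : Finset ι), P.card ≤ κ → (∀ i ∈ P, IsCoprime (c i) (d i)) →
    ∀ u v : ℕ, v ≤ X → |NN c d P z u v - S1 c d P z * (Icc (u + 1) v).card| ≤ X / Real.log X ^ A := by
  classical
  obtain ⟨X₁, h1⟩ := fund1 κ (A + κ) E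
  obtain ⟨n3, h3⟩ := Vz_inv_small E
  obtain ⟨n4, h4⟩ := ev_log 1 1
  refine ⟨max X₁ (max n3 n4), fun X hX z hz1 hz2 ι c d P hκ hcop u v hv => ?_⟩
  simp only [max_le_iff] at hX
  obtain ⟨c0, c1, c2⟩ := hX
  obtain ⟨_, hl1⟩ := h4 X c2
  set l := Real.log X with hl
  have hl0 : 0 < l := by linarith
  have hz1' : 1 ≤ z := by
    have : (1 : ℝ) ≤ z := by linarith
    exact_mod_cast this
  have key := h1 X c0 z hz1 hz2 ι c d P hκ hcop u v hv
  have hV := h3 X c1 z hz1' hz2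
  have hV0 : 0 < (Vz z)⁻¹ := inv_pos.2 (Vz_pos z)
  unfold S1 NN
  rw [Sq_eq]
  have e : ((Vz z)⁻¹) ^ P.card * (((Icc (u + 1) v).filter (fun n : ℕ => ∀ p ∈ pz z, ¬ bad c d P p n)).card : ℝ) -
      (∏ p ∈ pz z, (1 - (nu2 (Q1 c d P) p : ℝ) / p ^ 2)) * ((Vz z)⁻¹) ^ P.card * (Icc (u + 1) v).card =
      ((Vz z)⁻¹) ^ P.card * ((((Icc (u + 1) v).filter (fun n : ℕ => ∀ p ∈ pz z, ¬ bad c d P p n)).card : ℝ) -
        (Icc (u + 1) v).card * ∏ p ∈ pz z, (1 - (nu2 (Q1 c d P) p : ℝ) / p ^ 2)) := by ring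
  rw [e, abs_mul, abs_of_pos (by positivity)]
  calc ((Vz z)⁻¹) ^ P.card * _ ≤ l ^ κ * (X / l ^ (A + κ)) := by
        refine mul_le_mul ?_ key (abs_nonneg _) (by positivity)
        exact (pow_le_pow_left₀ hV0.le hV _).trans (pow_le_pow_right₀ hl1 hκ)
    _ = X / l ^ A := by
        rw [pow_add]
        field_simp

open Classical in
/-- the exceptional primes -/
noncomputable def Ex1 (c d : ι → ℤ) (P : Finset ι) : Finset ℕ :=
  P.biUnion (fun i => (c i).natAbs.primeFactors ∪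
    P.biUnion (fun j => ((c i * d j - c j * d i : ℤ)).natAbs.primeFactors))

lemma Ex1_card (c d : ι → ℤ) (P : Finset ι) (κ : ℕ) (hκ : P.card ≤ κ) (D : ℝ) (hD : 0 ≤ D)
    (h0 : ∀ i ∈ P, ((c i).natAbs.primeFactors.card : ℝ) ≤ D)
    (h1 : ∀ i ∈ P, ∀ j ∈ P, (((c i * d j - c j * d i : ℤ)).natAbs.primeFactors.card : ℝ) ≤ D) :
    ((Ex1 c d P).card : ℝ) ≤ κ * (D + κ * D) := by
  classical
  unfold Ex1
  have hPK : (P.card : ℝ) ≤ κ := by exact_mod_cast hκ
  have h4 : ((P.biUnion (fun i => (c i).natAbs.primeFactors ∪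
      P.biUnion (fun j => ((c i * d j - c j * d i : ℤ)).natAbs.primeFactors))).card : ℝ) ≤
      ∑ i ∈ P, (((c i).natAbs.primeFactors ∪
      P.biUnion (fun j => ((c i * d j - c j * d i : ℤ)).natAbs.primeFactors)).card : ℝ) := by
    exact_mod_cast card_biUnion_le
  refine h4.trans ?_
  have h5 : ∀ i ∈ P, (((c i).natAbs.primeFactors ∪
      P.biUnion (fun j => ((c i * d j - c j * d i : ℤ)).natAbs.primeFactors)).card : ℝ) ≤ D + κ * D := by
    intro i hi
    have h6 : (((c i).natAbs.primeFactors ∪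
        P.biUnion (fun j => ((c i * d j - c j * d i : ℤ)).natAbs.primeFactors)).card : ℝ) ≤
        ((c i).natAbs.primeFactors.card : ℝ) +
        ((P.biUnion (fun j => ((c i * d j - c j * d i : ℤ)).natAbs.primeFactors)).card : ℝ) := by
      exact_mod_cast card_union_le _ _
    have h7 : ((P.biUnion (fun j => ((c i * d j - c j * d i : ℤ)).natAbs.primeFactors)).card : ℝ) ≤
        ∑ j ∈ P, ((((c i * d j - c j * d i : ℤ)).natAbs.primeFactors).card : ℝ) := by
      exact_mod_cast card_biUnion_le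
    have h8 : ∑ j ∈ P, ((((c i * d j - c j * d i : ℤ)).natAbs.primeFactors).card : ℝ) ≤ ∑ j ∈ P, D :=
      sum_le_sum fun j hj => h1 i hi j hj
    rw [sum_const, nsmul_eq_mul] at h8
    have h9 : (P.card : ℝ) * D ≤ κ * D := mul_le_mul_of_nonneg_right hPK hD
    have := h0 i hi
    linarith
  refine (sum_le_sum h5).trans ?_
  rw [sum_const, nsmul_eq_mul]
  exact mul_le_mul_of_nonneg_right hPK (by positivity)

/-- the main term with the complete singular series -/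
theorem modelX1 (κ A : ℕ) : ∃ E0 : ℕ, ∀ E : ℕ, E0 ≤ E → ∃ X₀ : ℕ, ∀ X : ℕ, X₀ ≤ X → ∀ z : ℕ, Real.log X ^ E ≤ z →
    (z : ℝ) ≤ Real.log X ^ (E + 1) →
    ∀ (ι : Type) (c d : ι → ℤ) (P : Finset ι), P.card ≤ κ → (∀ i ∈ P, IsCoprime (c i) (d i)) →
      (∀ i ∈ P, c i ≠ 0 ∧ |c i| ≤ X ^ 2 ∧ |d i| ≤ X ^ 3) → (∀ i ∈ P, ∀ j ∈ P, i ≠ j → c i * d j ≠ c j * d i) →
      ∀ u v : ℕ, v ≤ X → |NN c d P z u v - S1 c d P X * (Icc (u + 1) v).card| ≤ X / Real.log X ^ A := by
  classical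
  refine ⟨A + κ + 4, fun E hE => ?_⟩
  obtain ⟨X₁, h1⟩ := model1 κ (A + 1) (E + 1)
  obtain ⟨n3, h3⟩ := Vz_inv_small (E + 1)
  obtain ⟨n4, h4⟩ := ev_log (E + 1) (2 * (cs κ * (1 + κ * (10 + κ * 10))) + 2)
  refine ⟨max X₁ (max n3 (max n4 2)), fun X hX z hz1 hz2 ι c d P hκ hcop hsz hne u v hv => ?_⟩
  simp only [max_le_iff] at hX
  obtain ⟨c0, c1, c2, c3⟩ := hX
  obtain ⟨hbig, hl⟩ := h4 X c2
  set l := Real.log X with hldef
  have hcs : 0 ≤ cs κ := by unfold cs; positivity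
  have hcst : 0 ≤ cs κ * (1 + κ * (10 + κ * 10)) := by positivity
  have hl2 : 2 ≤ l := by linarith
  have hl1 : 1 ≤ l := by linarith
  have hl0 : 0 < l := by linarith
  have hE1 : (1 : ℝ) ≤ l ^ E := one_le_pow₀ hl1
  have hz1' : 1 ≤ z := by
    have : (1 : ℝ) ≤ z := by linarith
    exact_mod_cast this
  have hz0 : (0 : ℝ) < z := by exact_mod_cast hz1'
  have hlz : l ≤ z := by
    calc l = l ^ 1 := (pow_one l).symm
      _ ≤ l ^ E := pow_le_pow_right₀ hl1 (by omega)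
      _ ≤ z := hz1
  have hzX : z ≤ X := by
    have : (z : ℝ) ≤ X := hz2.trans hbig
    exact_mod_cast this
  have hX1 : 1 ≤ X := by omega
  have hX0 : (0 : ℝ) < X := by exact_mod_cast hX1
  have hX2 : (2 : ℝ) ≤ X := by exact_mod_cast c3
  have key := h1 X c0 z hlz hz2 ι c d P hκ hcop u v hv
  have hV := h3 X c1 z hz1' hz2
  have hV0 : 0 < (Vz z)⁻¹ := inv_pos.2 (Vz_pos z)
  -- the exceptional primes
  have hpf : ∀ n : ℕ, (n : ℝ) ≤ (X : ℝ) ^ 6 → (n.primeFactors.card : ℝ) ≤ 10 * l := by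
    intro n hn
    rcases Nat.eq_zero_or_pos n with h | h
    · rw [h]; simp; linarith
    · have h5 := card_pf n h
      have h6 : Real.log n ≤ 6 * l := by
        have : Real.log n ≤ Real.log ((X : ℝ) ^ 6) := Real.log_le_log (by exact_mod_cast h) hn
        rwa [Real.log_pow] at this
      have h7 := Real.log_two_gt_d9
      have h8 : (0 : ℝ) ≤ n.primeFactors.card := Nat.cast_nonneg _
      nlinarith
  have hXp : ∀ n : ℕ, n ≤ 6 → ∀ b : ℤ, |b| ≤ X ^ n → (b.natAbs : ℝ) ≤ (X : ℝ) ^ 6 := by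
    intro n hn b hb
    have h5 : ((b.natAbs : ℤ) : ℝ) ≤ ((X ^ n : ℤ) : ℝ) := by
      rw [Int.natCast_natAbs]
      exact_mod_cast hb
    have h6 : (X : ℝ) ^ n ≤ (X : ℝ) ^ 6 := pow_le_pow_right₀ (by linarith) hn
    push_cast at h5
    have h7 : (b.natAbs : ℝ) = |(b : ℝ)| := by
      rw [Nat.cast_natAbs]; push_cast; rfl
    rw [h7]
    linarith
  have hEx : ((Ex1 c d P).card : ℝ) ≤ κ * (10 * l + κ * (10 * l)) := by
    refine Ex1_card c d P κ hκ (10 * l) (by positivity) (fun i hi => hpf _ ?_) (fun i hi j hj => hpf _ ?_)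
    · exact hXp 2 (by norm_num) _ (hsz i hi).2.1
    · obtain ⟨_, h5, h6⟩ := hsz i hi
      obtain ⟨_, h7, h8⟩ := hsz j hj
      refine hXp 6 le_rfl _ ?_
      have h9 : |c i * d j| ≤ (X : ℤ) ^ 5 := by
        rw [abs_mul]
        calc |c i| * |d j| ≤ (X : ℤ) ^ 2 * X ^ 3 := mul_le_mul h5 h8 (abs_nonneg _) (by positivity)
          _ = _ := by ring
      have h10 : |c j * d i| ≤ (X : ℤ) ^ 5 := by
        rw [abs_mul]
        calc |c j| * |d i| ≤ (X : ℤ) ^ 2 * X ^ 3 := mul_le_mul h7 h6 (abs_nonneg _) (by positivity)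
          _ = _ := by ring
      have h11 : |c i * d j - c j * d i| ≤ |c i * d j| + |c j * d i| := abs_sub _ _
      have hX2' : (2 : ℤ) ≤ X := by exact_mod_cast c3
      have h12 : (2 : ℤ) * X ^ 5 ≤ X ^ 6 := by
        calc (2 : ℤ) * X ^ 5 ≤ X * X ^ 5 := mul_le_mul_of_nonneg_right hX2' (by positivity)
          _ = X ^ 6 := by ring
      linarith
  have hgood : ∀ p, p.Prime → p ∉ Ex1 c d P → P.card * p ≤ nu2 (Q1 c d P) p + P.card ^ 2 := by
    intro p hp hpE
    unfold Ex1 at hpE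
    simp only [mem_biUnion, mem_union, not_exists, not_and, not_or, Nat.mem_primeFactors, ne_eq] at hpE
    have h5 := nu1_eq c d P p hp (fun i hi hd => by
        have h5 := (hpE i hi).1 hp (by
          have := Int.natAbs_dvd_natAbs.2 hd
          simpa using this)
        exact (hsz i hi).1 (Int.natAbs_eq_zero.1 (not_not.1 h5))) (fun i hi j hj hij hd => by
        have h5 := (hpE i hi).2 j hj hp (by
          have := Int.natAbs_dvd_natAbs.2 hd
          simpa using this)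
        exact hne i hi j hj hij (sub_eq_zero.1 (Int.natAbs_eq_zero.1 (not_not.1 h5))))
    rw [nu2_Q1]
    have := Nat.mul_le_mul_right p h5
    omega
  have hD : cs P.card * (1 + ((Ex1 c d P).card : ℝ)) ≤ (cs κ * (1 + κ * (10 + κ * 10))) * l := by
    have h5 : 1 + ((Ex1 c d P).card : ℝ) ≤ (1 + κ * (10 + κ * 10)) * l := by
      have : (1 + κ * (10 + κ * 10)) * l = l + κ * (10 * l + κ * (10 * l)) := by ring
      rw [this]
      linarith
    calc cs P.card * (1 + ((Ex1 c d P).card : ℝ)) ≤ cs κ * ((1 + κ * (10 + κ * 10)) * l) := by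
          refine mul_le_mul (cs_mono hκ) h5 (by positivity) hcs
      _ = _ := by ring
  have hDl : cs P.card * (1 + ((Ex1 c d P).card : ℝ)) ≤ l ^ 2 / 2 := by
    refine hD.trans ?_
    rw [sq]
    have : (cs κ * (1 + κ * (10 + κ * 10))) ≤ l / 2 := by linarith
    calc (cs κ * (1 + κ * (10 + κ * 10))) * l ≤ (l / 2) * l := by gcongr
      _ = _ := by ring
  have hzbig : l ^ (A + κ + 4) ≤ z := (pow_le_pow_right₀ hl1 hE).trans hz1
  have h20 := Sq_near (κ := P.card) (X := X) (z := z) (Q := Q1 c d P) (Ex1 c d P) hz1' hzX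
    (fun p hp => by rw [nu2_Q1]; exact Nat.mul_le_mul_right _ (nu1_le c d P p hp hcop)) hgood (by
      refine hDl.trans ?_
      have h5 : l ^ 2 ≤ l ^ (A + κ + 4) := pow_le_pow_right₀ hl1 (by omega)
      have h6 : 0 ≤ l ^ 2 := by positivity
      linarith)
  have hIc : ((Icc (u + 1) v).card : ℝ) ≤ X := by
    rw [Nat.card_Icc]
    have : v + 1 - (u + 1) ≤ X := by omega
    exact_mod_cast this
  have h21 : |S1 c d P X - S1 c d P z| * (Icc (u + 1) v).card ≤ X / l ^ (A + 1) := by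
    unfold S1
    have h22 : Sq P.card (Q1 c d P) z ≤ l ^ κ :=
      (Sq_upper _ _ _).trans ((pow_le_pow_left₀ hV0.le hV _).trans (pow_le_pow_right₀ hl1 hκ))
    have h23 : 2 * ((cs P.card * (1 + ((Ex1 c d P).card : ℝ))) / z) ≤ l ^ 2 / l ^ (A + κ + 4) := by
      calc 2 * ((cs P.card * (1 + ((Ex1 c d P).card : ℝ))) / z) ≤ 2 * ((l ^ 2 / 2) / z) := by gcongr
        _ = l ^ 2 / z := by ring
        _ ≤ _ := by gcongr
    calc |Sq P.card (Q1 c d P) X - Sq P.card (Q1 c d P) z| * (Icc (u + 1) v).card ≤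
        (l ^ κ * (l ^ 2 / l ^ (A + κ + 4))) * X := by
          refine mul_le_mul (h20.trans (mul_le_mul h22 h23 (by
            have : 0 ≤ cs P.card := by unfold cs; positivity
            positivity) (by positivity))) hIc (Nat.cast_nonneg _) (by positivity)
      _ = X / l ^ (A + 2) := by
          rw [show A + κ + 4 = κ + 2 + (A + 2) by ring, pow_add, pow_add]
          field_simp
      _ ≤ X / l ^ (A + 1) := by
          have : l ^ (A + 1) ≤ l ^ (A + 2) := pow_le_pow_right₀ hl1 (by omega)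
          gcongr
  have e : NN c d P z u v - S1 c d P X * (Icc (u + 1) v).card =
      (NN c d P z u v - S1 c d P z * (Icc (u + 1) v).card) -
      (S1 c d P X - S1 c d P z) * (Icc (u + 1) v).card := by ring
  rw [e]
  refine (abs_sub _ _).trans ?_
  rw [abs_mul, abs_of_nonneg (Nat.cast_nonneg (α := ℝ) (Icc (u + 1) v).card)]
  refine (add_le_add key h21).trans ?_
  calc (X : ℝ) / l ^ (A + 1) + X / l ^ (A + 1) = (2 / l) * (X / l ^ A) := by rw [pow_succ]; field_simp; ring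
    _ ≤ 1 * (X / l ^ A) := by
        gcongr
        rw [div_le_one hl0]
        exact hl2
    _ = _ := one_mul _

/-- positivity -/
lemma S1_lower (c d : ι → ℤ) (P : Finset ι) (hcop : ∀ i ∈ P, IsCoprime (c i) (d i))
    (hs : ∀ p, p.Prime → p ≤ 4 * P.card ^ 2 + 2 → ∃ n : ℤ, ¬ bad c d P p n) (z : ℕ) : lowc P.card ≤ S1 c d P z := by
  classical
  refine Sq_lower (fun p hp => by rw [nu2_Q1]; exact Nat.mul_le_mul_right _ (nu1_le c d P p hp hcop)) ?_ z
  intro p hp hle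
  obtain ⟨n, hn⟩ := hs p hp hle
  rw [nu2_Q1, sq]
  refine Nat.mul_lt_mul_of_pos_right ?_ hp.pos
  have h1 : nu1 c d P p = ((range p).filter (fun x : ℕ => bad c d P p x)).card := by
    unfold nu1
    congr 1
  rw [h1]
  have h2 : (range p).filter (fun x : ℕ => bad c d P p x) ⊂ range p := by
    rw [filter_ssubset]
    refine ⟨(n % p).toNat, ?_, ?_⟩
    · rw [mem_range]
      have hp0 : (0 : ℤ) < p := by exact_mod_cast hp.pos
      have h3 := Int.emod_nonneg n hp0.ne'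
      have h4 := Int.emod_lt_of_pos n hp0
      omega
    · intro h3
      apply hn
      have hp0 : (0 : ℤ) < p := by exact_mod_cast hp.pos
      have h4 := Int.emod_nonneg n hp0.ne'
      rw [Int.toNat_of_nonneg h4] at h3
      refine (bad_congr c d P p n (n % p) ?_).2 h3
      exact Int.dvd_self_sub_emod
  have := card_lt_card h2
  rwa [card_range] at this

end Pool.Agent.H76.PB
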