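import Pool.Agent.H76.PB.Bin
import Pool.Agent.H76.PB.Two
import Pool.Agent.H76.PT.Hlc

set_option autoImplicit false

/-!
The binary problem for mixed tuples of primes and signs.
-/

namespace Pool.Agent.H76.PB

open Finset Pool.Agent.E8helper66.GB
open Pool.Agent.H807R2.Dav (ee norm_ee ee_add)
open Pool.Agent.E8helper77.GB (ev_log)
open Pool.Agent.H373R2.T7 (liR liR_norm lamz lamz_nonneg)
open Pool.Agent.H76.MU (FullAt Bx mem_Bx Bx_card lam lam_cast full_li sgn_norm lam_val)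
open Pool.Agent.H76.PT (fm vM cc dd W1 fm_eq weights vM_fm sign_prod)

variable {k : ℕ}

/-- the slopes of the forms in `n`, for `n + n' = m` -/
def cb (a : Fin 2 → Fin k → ℕ) : Fin (k + 1) ⊕ Fin (k + 1) → ℤ :=
  Sum.elim (fun i => (cc (a 0) i : ℤ)) (fun i => -(cc (a 1) i : ℤ))

/-- the constant terms of the forms in `n`, for `n + n' = m` -/
def db (a h : Fin 2 → Fin k → ℕ) (m : ℕ) : Fin (k + 1) ⊕ Fin (k + 1) → ℤ :=
  Sum.elim (fun i => (dd (h 0) i : ℤ)) (fun i => (cc (a 1) i : ℤ) * m + dd (h 1) i)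

/-- the forms -/
def Pb (P : Fin 2 → Finset (Fin (k + 1))) : Finset (Fin (k + 1) ⊕ Fin (k + 1)) := (P 0).disjSum (P 1)

lemma Pb_card (P : Fin 2 → Finset (Fin (k + 1))) : (Pb P).card = (P 0).card + (P 1).card := card_disjSum _ _

lemma cc_pos {a : Fin k → ℕ} (ha : ∀ i, 1 ≤ a i) (i : Fin (k + 1)) : 1 ≤ cc a i := by
  unfold cc
  refine Fin.cases ?_ (fun i => ?_) i
  · simp
  · simp only [Fin.cons_succ]
    exact ha i

/-- the main theorem on the binary problem -/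
theorem binary (k A K : ℕ) : ∃ X₀ : ℕ, ∀ X : ℕ, X₀ ≤ X → ∃ B ⊆ Bx k X, (B.card : ℝ) ≤ (X : ℝ) ^ k / Real.log X ^ A ∧
      ∀ h : Fin 2 → Fin k → ℕ, (∀ r, h r ∈ Bx k X ∧ h r ∉ B) → ∀ a : Fin 2 → Fin k → ℕ,
        (∀ r i, 1 ≤ a r i ∧ (a r i : ℝ) ≤ Real.log X ^ K) → ∀ P Q : Fin 2 → Finset (Fin (k + 1)), (∀ r, Disjoint (P r) (Q r)) →
        (∀ r, ∀ i ∈ P r, (cc (a r) i).Coprime (dd (h r) i)) →
        ∀ ε : Fin 2 → Fin (k + 1) → ℤ, (∀ r i, ε r i = 1 ∨ ε r i = -1) →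
        ∃ E ⊆ Icc 1 (2 * X), (E.card : ℝ) ≤ (X : ℝ) / Real.log X ^ A ∧ ∀ m ∈ Icc 1 (2 * X), m ∉ E →
        ‖∑ n ∈ pa X m, W1 (a 0) (h 0) (P 0) (Q 0) (ε 0) n * W1 (a 1) (h 1) (P 1) (Q 1) (ε 1) (m - n) -
          (S1 (cb a) (db a h m) (Pb P) X * (pa X m).card : ℝ)‖ ≤ (X : ℝ) / Real.log X ^ A := by
  classical
  set A₁ : ℕ := 2 * A + 2 * (2 * (k + 1)) + 3 with hA₁
  obtain ⟨E1, h1⟩ := weights k A₁ K
  obtain ⟨E2, h2⟩ := modelX1 (2 * (k + 1)) (A + 1)
  set E : ℕ := max E1 (max E2 1) with hE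
  obtain ⟨X₁, h1⟩ := h1 E (le_max_left _ _)
  obtain ⟨X₂, h2⟩ := h2 E ((le_max_left _ _).trans (le_max_right _ _))
  obtain ⟨X₃, h3⟩ := ev_log (K + 1) (2 ^ (k + 1) * 2 ^ (k + 1) + 6 * (2 ^ (k + 1) * 2 ^ (k + 1)) ^ 2 + 4)
  obtain ⟨X₄, h4⟩ := lamz_le_log (E + 1)
  refine ⟨max X₁ (max X₂ (max X₃ (max X₄ 4))), fun X hX => ?_⟩
  simp only [max_le_iff] at hX
  obtain ⟨c1, c2, c3, c4, c5⟩ := hX
  obtain ⟨hbig, hl⟩ := h3 X c3
  set l : ℝ := Real.log X with hldef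
  set M : ℝ := 2 ^ (k + 1) * 2 ^ (k + 1) with hM
  have hM1 : 1 ≤ M := by
    have : (1 : ℝ) ≤ 2 ^ (k + 1) := one_le_pow₀ (by norm_num)
    nlinarith
  have hM2 : 0 ≤ 6 * M ^ 2 := by positivity
  have hl4 : 4 ≤ l := by linarith
  have hl1 : 1 ≤ l := by linarith
  have hl0 : 0 < l := by linarith
  have hX4 : (4 : ℝ) ≤ X := by exact_mod_cast c5
  have hXpos : (0 : ℝ) < X := by linarith
  have hE1 : (1 : ℝ) ≤ l ^ E := one_le_pow₀ hl1
  set z : ℕ := ⌈l ^ E⌉₊ with hz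
  have hz1 : l ^ E ≤ z := Nat.le_ceil _
  have hz2 : (z : ℝ) ≤ l ^ (E + 1) := by
    have h7 : (z : ℝ) < l ^ E + 1 := Nat.ceil_lt_add_one (by positivity)
    rw [pow_succ]
    nlinarith
  have hz0 : 1 ≤ z := by
    have : (1 : ℝ) ≤ z := hE1.trans hz1
    exact_mod_cast this
  have hlz := h4 X c4 z hz0 hz2
  obtain ⟨B, hB1, hB2, hB3⟩ := h1 X c1 z hz1 hz2
  have hmono : (l : ℝ) ^ A ≤ l ^ A₁ := pow_le_pow_right₀ hl1 (by omega)
  have hK2 : 2 * l ^ K ≤ X := by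
    calc 2 * l ^ K ≤ l * l ^ K := by gcongr; linarith
      _ = l ^ (K + 1) := by rw [pow_succ]; ring
      _ ≤ X := hbig
  refine ⟨B, hB1, hB2.trans (by gcongr), ?_⟩
  intro h hh a ha P Q hPQ hcop ε hε
  have haX : ∀ r i, cc (a r) i ≤ X ∧ dd (h r) i ≤ X ∧ 1 ≤ cc (a r) i := by
    intro r i
    unfold cc dd
    refine Fin.cases ?_ (fun i => ?_) i
    · simp only [Fin.cons_zero]
      omega
    · simp only [Fin.cons_succ]
      have h5 := mem_Bx.1 (hh r).1 i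
      obtain ⟨h6, h7⟩ := ha r i
      have h8 : (a r i : ℝ) ≤ X := by
        have : 0 ≤ l ^ K := by positivity
        linarith
      exact ⟨by exact_mod_cast h8, h5.2, h6⟩
  -- the weights and the models
  set u : Fin 2 → ℕ → ℂ := fun r n => W1 (a r) (h r) (P r) (Q r) (ε r) n with hu
  set v : Fin 2 → ℕ → ℂ := fun r n => ((∏ i ∈ P r, lamz z (fm (a r) (h r) n i) : ℝ) : ℂ) with hv
  have hcardP : ∀ r, (P r).card ≤ k + 1 := fun r => by simpa using card_le_univ (P r)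
  have hcardQ : ∀ r, (Q r).card ≤ k + 1 := fun r => by simpa using card_le_univ (Q r)
  have h2l : 1 ≤ 2 * l := by linarith
  have hubd : ∀ r, ∀ n ∈ Icc 1 X, ‖u r n‖ ≤ M * l ^ (k + 1) := by
    intro r n hn
    rw [hu]
    dsimp only
    unfold W1
    rw [norm_mul]
    have b1 : ‖((∏ i ∈ P r, vM (fm (a r) (h r) n i) : ℝ) : ℂ)‖ ≤ (2 * l) ^ (k + 1) := by
      rw [Complex.norm_real, Real.norm_eq_abs, abs_prod]
      calc ∏ i ∈ P r, |vM (fm (a r) (h r) n i)| ≤ ∏ i ∈ P r, (2 * l) := by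
            refine prod_le_prod (fun _ _ => abs_nonneg _) fun i _ => ?_
            obtain ⟨_, h6, h7⟩ := vM_fm hX4 hK2 (ha r) (hh r).1 n hn i
            rw [abs_of_nonneg h6]
            exact h7
        _ = (2 * l) ^ (P r).card := by rw [prod_const]
        _ ≤ _ := pow_le_pow_right₀ h2l (hcardP r)
    have b2 : ‖((∏ i ∈ Q r, (1 + ε r i * lam (fm (a r) (h r) n i)) : ℤ) : ℂ)‖ ≤ 2 ^ (k + 1) := by
      rw [sign_prod (Q r) (ε r) (fun i => lam (fm (a r) (h r) n i)) (hε r) (fun i => lam_val _)]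
      split_ifs
      · push_cast
        rw [norm_pow, Complex.norm_ofNat]
        exact pow_le_pow_right₀ (by norm_num) (hcardQ r)
      · simp
    calc _ ≤ (2 * l) ^ (k + 1) * 2 ^ (k + 1) := mul_le_mul b1 b2 (norm_nonneg _) (by positivity)
      _ = M * l ^ (k + 1) := by rw [hM, mul_pow]; ring
  have hvbd : ∀ r, ∀ n ∈ Icc 1 X, ‖v r n‖ ≤ M * l ^ (k + 1) := by
    intro r n _
    rw [hv]
    dsimp only
    rw [Complex.norm_real, Real.norm_eq_abs, abs_prod]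
    calc ∏ i ∈ P r, |lamz z (fm (a r) (h r) n i)| ≤ ∏ i ∈ P r, l := by
          refine prod_le_prod (fun _ _ => abs_nonneg _) fun i _ => hlz _
      _ = l ^ (P r).card := by rw [prod_const]
      _ ≤ l ^ (k + 1) := pow_le_pow_right₀ hl1 (hcardP r)
      _ = 1 * l ^ (k + 1) := (one_mul _).symm
      _ ≤ M * l ^ (k + 1) := by gcongr
  have hsup : ∀ r, ∀ α : ℝ, ‖∑ n ∈ Icc 1 X, (u r n - v r n) * ee ((n : ℝ) * α)‖ ≤ X / l ^ A₁ := by
    intro r α
    exact (hB3 (h r) (hh r).1 (hh r).2 (a r) (ha r)).2.1 (P r) (Q r) (hPQ r) (ε r) (hε r) X le_rfl α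
  have hC1 : 1 ≤ M * l ^ (k + 1) := by
    have : (1 : ℝ) ≤ l ^ (k + 1) := one_le_pow₀ hl1
    nlinarith
  obtain ⟨Em, hE1', hE2', hE3'⟩ := bin X u v (M * l ^ (k + 1)) (X / l ^ A₁) (X / l ^ (A + 1)) hC1 (by positivity) hubd hvbd hsup
  refine ⟨Em, hE1', ?_, ?_⟩
  · -- the number of the exceptions
    have e4 : 3 * (X / l ^ A₁ * ((2 * X) * (M * l ^ (k + 1)) ^ 2)) ≤ (X / l ^ (A + 1)) * (X / l ^ A) := by
      have e3 : l ^ A₁ = l ^ (2 * (k + 1)) * (l ^ (2 * (k + 1)) * (l * l ^ (A + 1) * l ^ A) * l) := by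
        rw [hA₁, ← pow_succ', ← pow_add, ← pow_add, ← pow_succ, ← pow_add]; congr 1; ring
      have e5 : 3 * (X / l ^ A₁ * ((2 * X) * (M * l ^ (k + 1)) ^ 2)) =
          (6 * M ^ 2 / (l ^ (2 * (k + 1)) * l * l)) * ((X / l ^ (A + 1)) * (X / l ^ A)) := by
        rw [e3, mul_pow, ← pow_mul, mul_comm (k + 1) 2]
        field_simp
        ring
      rw [e5]
      calc (6 * M ^ 2 / (l ^ (2 * (k + 1)) * l * l)) * ((X / l ^ (A + 1)) * (X / l ^ A)) ≤ 1 * ((X / l ^ (A + 1)) * (X / l ^ A)) := by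
            gcongr
            rw [div_le_one (by positivity)]
            have h5 : 1 ≤ l ^ (2 * (k + 1)) := one_le_pow₀ hl1
            calc 6 * M ^ 2 ≤ l := by linarith
              _ = 1 * l * 1 := by ring
              _ ≤ _ := by gcongr
        _ = _ := one_mul _
    have h5 := hE2'.trans e4
    exact le_of_mul_le_mul_left h5 (by positivity)
  intro m hm hmE
  have hm' := mem_Icc.1 hm
  -- the model
  have hcop2 : ∀ i ∈ Pb P, IsCoprime (cb a i) (db a h m i) := by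
    rintro (i | i) hi
    · have hi' : i ∈ P 0 := by unfold Pb at hi; exact inl_mem_disjSum.1 hi
      have := hcop 0 i hi'
      show IsCoprime ((cc (a 0) i : ℤ)) ((dd (h 0) i : ℤ))
      exact Nat.isCoprime_iff_coprime.2 this
    · have hi' : i ∈ P 1 := by unfold Pb at hi; exact inr_mem_disjSum.1 hi
      have := hcop 1 i hi'
      show IsCoprime (-(cc (a 1) i : ℤ)) ((cc (a 1) i : ℤ) * m + dd (h 1) i)
      have h5 : IsCoprime ((cc (a 1) i : ℤ)) ((dd (h 1) i : ℤ)) := Nat.isCoprime_iff_coprime.2 this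
      have h6 := (IsCoprime.neg_left_iff _ _).2 h5
      have h7 := (IsCoprime.add_mul_left_right_iff (x := -(cc (a 1) i : ℤ)) (y := (dd (h 1) i : ℤ)) (z := -(m : ℤ))).2 h6
      rw [show (cc (a 1) i : ℤ) * m + dd (h 1) i = (dd (h 1) i : ℤ) + -(cc (a 1) i : ℤ) * -(m : ℤ) by ring]
      exact h7
  have hnd : ∀ r, ∀ i j : Fin (k + 1), i ≠ j → (cc (a r) i : ℤ) * dd (h r) j ≠ cc (a r) j * dd (h r) i := by
    intro r i j hij
    have h5 := (hB3 (h r) (hh r).1 (hh r).2 (a r) (ha r)).2.2 i j hij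
    exact_mod_cast h5
  have hmod := h2 X c2 z hz1 hz2 _ (cb a) (db a h m) (Pb P)
    (by rw [Pb_card]; have := hcardP 0; have := hcardP 1; omega) hcop2
    (by
      have hXi : (4 : ℤ) ≤ X := by exact_mod_cast c5
      have hmi : (m : ℤ) ≤ 2 * X := by exact_mod_cast hm'.2
      rintro (i | i) _
      · obtain ⟨h5, h6, h7⟩ := haX 0 i
        have h5' : (cc (a 0) i : ℤ) ≤ X := by exact_mod_cast h5
        have h6' : (dd (h 0) i : ℤ) ≤ X := by exact_mod_cast h6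
        have h7' : (1 : ℤ) ≤ cc (a 0) i := by exact_mod_cast h7
        show (cc (a 0) i : ℤ) ≠ 0 ∧ |(cc (a 0) i : ℤ)| ≤ X ^ 2 ∧ |(dd (h 0) i : ℤ)| ≤ X ^ 3
        refine ⟨by omega, ?_, ?_⟩
        · rw [abs_of_nonneg (by omega)]; nlinarith
        · rw [abs_of_nonneg (by omega)]
          have : (X : ℤ) * 1 ≤ X * X ^ 2 := mul_le_mul_of_nonneg_left (by nlinarith) (by omega)
          nlinarith
      · obtain ⟨h5, h6, h7⟩ := haX 1 i
        have h5' : (cc (a 1) i : ℤ) ≤ X := by exact_mod_cast h5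
        have h6' : (dd (h 1) i : ℤ) ≤ X := by exact_mod_cast h6
        have h7' : (1 : ℤ) ≤ cc (a 1) i := by exact_mod_cast h7
        show -(cc (a 1) i : ℤ) ≠ 0 ∧ |-(cc (a 1) i : ℤ)| ≤ X ^ 2 ∧ |(cc (a 1) i : ℤ) * m + dd (h 1) i| ≤ X ^ 3
        refine ⟨by omega, ?_, ?_⟩
        · rw [abs_neg, abs_of_nonneg (by omega)]; nlinarith
        · have h8 : (cc (a 1) i : ℤ) * m ≤ X * (2 * X) := mul_le_mul h5' hmi (by positivity) (by omega)
          have h9 : (0 : ℤ) ≤ (cc (a 1) i : ℤ) * m := by positivity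
          rw [abs_of_nonneg (by omega)]
          have : (X : ℤ) * (X * 4) ≤ X * (X * X) := by gcongr
          nlinarith)
    (by
      rintro (i | i) _ (j | j) _ hij
      · exact hnd 0 i j (fun h5 => hij (by rw [h5]))
      · show (cc (a 0) i : ℤ) * ((cc (a 1) j : ℤ) * m + dd (h 1) j) ≠ -(cc (a 1) j : ℤ) * dd (h 0) i
        have h5 : (1 : ℤ) ≤ cc (a 0) i := by exact_mod_cast (haX 0 i).2.2
        have h6 : (1 : ℤ) ≤ cc (a 1) j := by exact_mod_cast (haX 1 j).2.2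
        have h7 : (1 : ℤ) ≤ m := by exact_mod_cast hm'.1
        have h8 : 0 < (cc (a 0) i : ℤ) * ((cc (a 1) j : ℤ) * m + dd (h 1) j) := by positivity
        have h9 : 0 ≤ (cc (a 1) j : ℤ) * dd (h 0) i := by positivity
        intro h10
        rw [h10] at h8
        linarith
      · show -(cc (a 1) i : ℤ) * (dd (h 0) j : ℤ) ≠ (cc (a 0) j : ℤ) * ((cc (a 1) i : ℤ) * m + dd (h 1) i)
        have h5 : (1 : ℤ) ≤ cc (a 0) j := by exact_mod_cast (haX 0 j).2.2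
        have h6 : (1 : ℤ) ≤ cc (a 1) i := by exact_mod_cast (haX 1 i).2.2
        have h7 : (1 : ℤ) ≤ m := by exact_mod_cast hm'.1
        have h8 : 0 < (cc (a 0) j : ℤ) * ((cc (a 1) i : ℤ) * m + dd (h 1) i) := by positivity
        have h9 : 0 ≤ (cc (a 1) i : ℤ) * dd (h 0) j := by positivity
        intro h10
        rw [← h10] at h8
        linarith
      · show -(cc (a 1) i : ℤ) * ((cc (a 1) j : ℤ) * m + dd (h 1) j) ≠ -(cc (a 1) j : ℤ) * ((cc (a 1) i : ℤ) * m + dd (h 1) i)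
        intro h10
        apply hnd 1 i j (fun h5 => hij (by rw [h5]))
        linear_combination -h10)
    (m - 1 - X) (min X (m - 1)) (min_le_left _ _)
  have e1 : ∑ n ∈ pa X m, v 0 n * v 1 (m - n) = ((NN (cb a) (db a h m) (Pb P) z (m - 1 - X) (min X (m - 1)) : ℝ) : ℂ) := by
    rw [← NN_eq (cb a) (db a h m) (Pb P) z (m - 1 - X) (min X (m - 1))
      (fun i n => Sum.elim (fun i => fm (a 0) (h 0) n i) (fun i => fm (a 1) (h 1) (m - n) i) i) (by
        intro n hn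
        have hn' : n < m := (mem_pa.1 hn).2.1
        rintro (i | i) _
        · show ((fm (a 0) (h 0) n i : ℕ) : ℤ) = (cc (a 0) i : ℤ) * n + dd (h 0) i
          rw [fm_eq]; push_cast; ring
        · show ((fm (a 1) (h 1) (m - n) i : ℕ) : ℤ) = -(cc (a 1) i : ℤ) * n + ((cc (a 1) i : ℤ) * m + dd (h 1) i)
          rw [fm_eq]; push_cast [Nat.cast_sub hn'.le]; ring)]
    push_cast
    refine sum_congr rfl fun n _ => ?_
    rw [hv]
    dsimp only
    unfold Pb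
    rw [prod_disjSum]
    push_cast
    rfl
  have e5 : ‖((NN (cb a) (db a h m) (Pb P) z (m - 1 - X) (min X (m - 1)) : ℝ) : ℂ) -
      (S1 (cb a) (db a h m) (Pb P) X * (pa X m).card : ℝ)‖ ≤ (X : ℝ) / l ^ (A + 1) := by
    rw [← Complex.ofReal_sub, Complex.norm_real, Real.norm_eq_abs]
    exact hmod
  have hcirc := hE3' m hm hmE
  rw [e1] at hcirc
  calc _ = ‖(∑ n ∈ pa X m, u 0 n * u 1 (m - n) -
          ((NN (cb a) (db a h m) (Pb P) z (m - 1 - X) (min X (m - 1)) : ℝ) : ℂ)) +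
        (((NN (cb a) (db a h m) (Pb P) z (m - 1 - X) (min X (m - 1)) : ℝ) : ℂ) -
      (S1 (cb a) (db a h m) (Pb P) X * (pa X m).card : ℝ))‖ := by
        congr 1
        ring
    _ ≤ (X : ℝ) / l ^ (A + 1) + (X : ℝ) / l ^ (A + 1) :=
        (norm_add_le _ _).trans (add_le_add hcirc e5)
    _ = (2 / l) * (X / l ^ A) := by rw [pow_succ]; field_simp; ring
    _ ≤ 1 * (X / l ^ A) := by
        gcongr
        rw [div_le_one hl0]
        linarith
    _ = _ := one_mul _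

end Pool.Agent.H76.PB
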