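import Pool.Agent.H76.PT.Conv
import Pool.Agent.H76.VG.Model

set_option autoImplicit false

/-!
From the von Mangoldt function to the primes.
-/

namespace Pool.Agent.H76.PB

open Finset
open Pool.Agent.E8helper77.GB (ev_log)
open Pool.Agent.H76.MU (Bx mem_Bx)
open Pool.Agent.H76.PT (fm vM cc dd fm_eq vM_fm Tri mem_Tri lowc)
open Pool.Agent.H76.VG (hh hh_nonneg hh_sum lp vm_split lp_nonneg)

lemma prod_diff {ι : Type} (P : Finset ι) (x y : ι → ℝ) (C : ℝ) (hC : 1 ≤ C) (h0 : ∀ i ∈ P, 0 ≤ y i)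
    (h1 : ∀ i ∈ P, y i ≤ x i) (h2 : ∀ i ∈ P, x i ≤ C) :
    0 ≤ ∏ i ∈ P, x i - ∏ i ∈ P, y i ∧ ∏ i ∈ P, x i - ∏ i ∈ P, y i ≤ C ^ P.card * ∑ i ∈ P, (x i - y i) := by
  classical
  induction P using Finset.induction_on with
  | empty => simp
  | insert i s his ih =>
    obtain ⟨h3, h4⟩ := ih (fun j hj => h0 j (mem_insert_of_mem hj)) (fun j hj => h1 j (mem_insert_of_mem hj))
      (fun j hj => h2 j (mem_insert_of_mem hj))
    rw [prod_insert his, prod_insert his, sum_insert his, card_insert_of_notMem his]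
    have k0 := h0 i (mem_insert_self _ _)
    have k1 := h1 i (mem_insert_self _ _)
    have k2 := h2 i (mem_insert_self _ _)
    have k3 : 0 ≤ ∏ j ∈ s, y j := prod_nonneg fun j hj => h0 j (mem_insert_of_mem hj)
    have k4 : ∏ j ∈ s, y j ≤ C ^ s.card := by
      calc ∏ j ∈ s, y j ≤ ∏ j ∈ s, C := prod_le_prod (fun j hj => h0 j (mem_insert_of_mem hj))
            (fun j hj => (h1 j (mem_insert_of_mem hj)).trans (h2 j (mem_insert_of_mem hj)))
        _ = _ := by rw [prod_const]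
    have k5 : 0 ≤ ∑ j ∈ s, (x j - y j) := sum_nonneg fun j hj => sub_nonneg.2 (h1 j (mem_insert_of_mem hj))
    have k6 : 0 ≤ C ^ s.card := by positivity
    have e : x i * ∏ j ∈ s, x j - y i * ∏ j ∈ s, y j = x i * (∏ j ∈ s, x j - ∏ j ∈ s, y j) + (x i - y i) * ∏ j ∈ s, y j := by ring
    rw [e]
    have k7 : 0 ≤ x i := k0.trans k1
    constructor
    · exact add_nonneg (mul_nonneg k7 h3) (mul_nonneg (sub_nonneg.2 k1) k3)
    · calc x i * (∏ j ∈ s, x j - ∏ j ∈ s, y j) + (x i - y i) * ∏ j ∈ s, y j ≤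
          C * (C ^ s.card * ∑ j ∈ s, (x j - y j)) + (x i - y i) * C ^ s.card := by
            apply add_le_add
            · exact mul_le_mul k2 h4 h3 (by linarith)
            · exact mul_le_mul_of_nonneg_left k4 (sub_nonneg.2 k1)
        _ ≤ C * (C ^ s.card * ∑ j ∈ s, (x j - y j)) + C * ((x i - y i) * C ^ s.card) := by
            have : 0 ≤ (x i - y i) * C ^ s.card := mul_nonneg (sub_nonneg.2 k1) k6
            nlinarith
        _ = _ := by rw [pow_succ]; ring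

lemma ev_sqrt2 (D : ℕ) (c : ℝ) : ∃ N0 : ℕ, ∀ N : ℕ, N0 ≤ N → c * Real.log N ^ D ≤ √(N : ℝ) ∧ 1 ≤ Real.log N := by
  obtain ⟨N0, h0⟩ := ev_log (2 * (D + 1)) (|c| + 1)
  refine ⟨N0, fun N hN => ?_⟩
  obtain ⟨h1, h2⟩ := h0 N hN
  have hc := abs_nonneg c
  have hl : 1 ≤ Real.log N := by linarith
  refine ⟨?_, hl⟩
  have h3 : Real.log N ^ (D + 1) ≤ √(N : ℝ) := by
    apply Real.le_sqrt_of_sq_le
    rw [← pow_mul, mul_comm]
    exact h1
  refine le_trans ?_ h3
  rw [pow_succ']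
  have h4 : 0 ≤ Real.log N ^ D := by positivity
  have h5 := le_abs_self c
  exact mul_le_mul_of_nonneg_right (by linarith) h4

/-- prime powers are rare among the values of a form -/
lemma hh_form (k K A : ℕ) : ∃ X₀ : ℕ, ∀ X : ℕ, X₀ ≤ X → ∀ h ∈ Bx k X, ∀ a : Fin k → ℕ,
    (∀ i, 1 ≤ a i ∧ (a i : ℝ) ≤ Real.log X ^ K) → ∀ i : Fin (k + 1),
    ∑ n ∈ Icc 1 X, hh (fm a h n i) ≤ X / Real.log X ^ A := by
  classical
  obtain ⟨X₁, h1⟩ := ev_sqrt2 (K + 1 + A) 8
  obtain ⟨X₂, h2⟩ := ev_log (K + 1) 4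
  refine ⟨max X₁ (max X₂ 4), fun X hX h hhB a ha i => ?_⟩
  simp only [max_le_iff] at hX
  obtain ⟨c1, c2, c3⟩ := hX
  obtain ⟨h3, hl1⟩ := h1 X c1
  obtain ⟨hbig, hl4⟩ := h2 X c2
  set l : ℝ := Real.log X with hldef
  have hl0 : 0 < l := by linarith
  have hX4 : (4 : ℝ) ≤ X := by exact_mod_cast c3
  have hX0 : (0 : ℝ) < X := by linarith
  set Q : ℕ := ⌊l ^ K⌋₊ with hQ
  have hQ2 : (Q : ℝ) ≤ l ^ K := Nat.floor_le (by positivity)
  set Y : ℕ := (Q + 1) * X with hY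
  have hlK : 1 ≤ l ^ K := one_le_pow₀ hl1
  have hYr : (Y : ℝ) ≤ 2 * l ^ K * X := by
    rw [hY]; push_cast
    have : (Q : ℝ) + 1 ≤ 2 * l ^ K := by linarith
    gcongr
  have hcc : 1 ≤ cc a i ∧ cc a i ≤ Q + 1 ∧ cc a i * X + dd h i ≤ Y := by
    unfold cc dd
    refine Fin.cases ?_ (fun i => ?_) i
    · simp only [Fin.cons_zero]
      refine ⟨le_rfl, by omega, ?_⟩
      rw [hY]; nlinarith
    · simp only [Fin.cons_succ]
      have h5 := mem_Bx.1 hhB i
      have h6 := (ha i).1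
      have h7 : a i ≤ Q := Nat.le_floor (ha i).2
      refine ⟨h6, by omega, ?_⟩
      rw [hY]
      calc a i * X + h i ≤ Q * X + X := by gcongr; exact h5.2
        _ = (Q + 1) * X := by ring
  have hY1 : 1 ≤ Y := by
    rw [hY]
    exact Nat.mul_pos (by omega) (by omega)
  have e1 : ∑ n ∈ Icc 1 X, hh (fm a h n i) = ∑ j ∈ (Icc 1 X).image (fun n => fm a h n i), hh j := by
    rw [sum_image]
    intro x _ y _ hxy
    simp only [fm_eq] at hxy
    have h5 : cc a i * x = cc a i * y := by omega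
    exact Nat.eq_of_mul_eq_mul_left (by omega) h5
  have e2 : ∑ j ∈ (Icc 1 X).image (fun n => fm a h n i), hh j ≤ ∑ j ∈ Icc 1 Y, hh j := by
    apply sum_le_sum_of_subset_of_nonneg _ (fun _ _ _ => hh_nonneg _)
    intro j hj
    rw [mem_image] at hj
    obtain ⟨n, hn, rfl⟩ := hj
    rw [mem_Icc] at hn ⊢
    rw [fm_eq]
    have h5 : cc a i * n ≤ cc a i * X := Nat.mul_le_mul_left _ hn.2
    have h6 : 1 * 1 ≤ cc a i * n := Nat.mul_le_mul hcc.1 hn.1
    omega
  have hlogY : Real.log Y ≤ 2 * l := by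
    have h5 : (Y : ℝ) ≤ (X : ℝ) ^ 2 := by
      have h6 : 2 * l ^ K ≤ X := by
        calc 2 * l ^ K ≤ l * l ^ K := by gcongr; linarith
          _ = l ^ (K + 1) := by rw [pow_succ]; ring
          _ ≤ X := hbig
      calc (Y : ℝ) ≤ 2 * l ^ K * X := hYr
        _ ≤ X * X := by gcongr
        _ = _ := by ring
    have h6 := Real.log_le_log (by exact_mod_cast hY1) h5
    rwa [Real.log_pow] at h6
  have hsq : √(Y : ℝ) ≤ 2 * l ^ K * √(X : ℝ) := by
    apply Real.sqrt_le_iff.2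
    refine ⟨by positivity, ?_⟩
    rw [mul_pow, Real.sq_sqrt hX0.le]
    refine hYr.trans ?_
    have : 1 ≤ 2 * l ^ K := by linarith
    gcongr
    nlinarith
  rw [e1]
  refine e2.trans ((hh_sum Y hY1).trans ?_)
  have hs0 : 0 < √(X : ℝ) := Real.sqrt_pos.2 hX0
  calc 2 * √(Y : ℝ) * Real.log Y ≤ 2 * (2 * l ^ K * √(X : ℝ)) * (2 * l) := by
        have : 0 ≤ Real.log Y := Real.log_natCast_nonneg _
        gcongr
    _ = (8 * l ^ (K + 1 + A)) * √(X : ℝ) / l ^ A := by rw [pow_add, pow_succ]; field_simp; ring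
    _ ≤ √(X : ℝ) * √(X : ℝ) / l ^ A := by gcongr
    _ = X / l ^ A := by rw [Real.mul_self_sqrt hX0.le]

/-- the sums over the triples of a function of one variable -/
lemma tri_one (X m : ℕ) (r : Fin 3) (g : ℕ → ℝ) (hg : ∀ n, 0 ≤ g n) :
    ∑ n ∈ Tri X m, g (n r) ≤ X * ∑ x ∈ Icc 1 X, g x := by
  classical
  set r' : Fin 3 := r + 1 with hr'
  have h1 : ∑ n ∈ Tri X m, g (n r) = ∑ u ∈ (Tri X m).image (fun n => (n r, n r')), g u.1 := by
    rw [sum_image]
    intro n hn n' hn' e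
    rw [mem_coe, mem_Tri] at hn hn'
    rw [Prod.mk.injEq] at e
    obtain ⟨e1, e2⟩ := e
    have h3 := hn.2
    have h4 := hn'.2
    funext s
    fin_cases r <;> simp only [hr'] at e1 e2 <;> fin_cases s <;> simp at e1 e2 h3 h4 ⊢ <;> omega
  rw [h1]
  calc _ ≤ ∑ u ∈ Icc 1 X ×ˢ Icc 1 X, g u.1 := by
        apply sum_le_sum_of_subset_of_nonneg _ (fun _ _ _ => hg _)
        intro u hu
        rw [mem_image] at hu
        obtain ⟨n, hn, rfl⟩ := hu
        rw [mem_Tri] at hn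
        exact mem_product.2 ⟨mem_Icc.2 (hn.1 r), mem_Icc.2 (hn.1 r')⟩
    _ = _ := by
        rw [sum_product]
        simp only [sum_const, Nat.card_Icc, nsmul_eq_mul, Nat.add_sub_cancel]
        rw [← mul_sum]

/-- the lower bounds for the singular series -/
lemma lowc_anti {κ κ' : ℕ} (h : κ ≤ κ') : lowc κ' ≤ lowc κ := by
  unfold lowc
  set p := 4 * κ ^ 2 + 2 with hp
  set p' := 4 * κ' ^ 2 + 2 with hp'
  have h1 : p ≤ p' := by
    have := Nat.pow_le_pow_left h 2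
    omega
  have h2 : (0 : ℝ) < (p : ℝ) := by
    have : 0 < p := by omega
    exact_mod_cast this
  have h3 : (p : ℝ) ≤ p' := by exact_mod_cast h1
  have h4 : (1 : ℝ) ≤ (p : ℝ) := by
    have : 1 ≤ p := by omega
    exact_mod_cast this
  apply div_le_div_of_nonneg_right _ (by norm_num)
  calc (1 / ((p' : ℕ) : ℝ) ^ 2) ^ p' ≤ (1 / ((p : ℕ) : ℝ) ^ 2) ^ p' := by gcongr
    _ ≤ (1 / ((p : ℕ) : ℝ) ^ 2) ^ p := by
        apply pow_le_pow_of_le_one (by positivity) _ h1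
        rw [div_le_one (by positivity)]
        exact one_le_pow₀ h4

end Pool.Agent.H76.PB
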