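import Pool.Agent.H76.PB.BinM
import Pool.Agent.H76.PB.Pr

set_option autoImplicit false

/-!
The binary theorem for primes.
-/

namespace Pool.Agent.H76.PB

open Finset
open Pool.Agent.E8helper77.GB (ev_log)
open Pool.Agent.H373R2.T7 (pz mem_pz)
open Pool.Agent.H76.MU (Bx mem_Bx lam lam_val)
open Pool.Agent.H76.PT (fm vM cc dd fm_eq vM_fm lowc lowc_pos W1 sign_prod Sq Gq)
open Pool.Agent.H76.VG (nu2 hh hh_nonneg hh_sum lp vm_split lp_nonneg)

/-- the pairs of positive integers with the sum `m` -/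
def Pai (m : ℕ) : Finset (Fin 2 → ℕ) := (Fintype.piFinset fun _ : Fin 2 => Icc 1 m).filter (fun n => n 0 + n 1 = m)

lemma mem_Pai {m : ℕ} {n : Fin 2 → ℕ} : n ∈ Pai m ↔ (∀ r, 1 ≤ n r ∧ n r ≤ m) ∧ n 0 + n 1 = m := by
  unfold Pai
  rw [mem_filter, Fintype.mem_piFinset]
  simp only [mem_Icc]

lemma Pai_sum {M : Type} [AddCommMonoid M] {X m : ℕ} (hm : m ≤ X) (f : ℕ → ℕ → M) :
    ∑ n ∈ Pai m, f (n 0) (n 1) = ∑ n ∈ pa X m, f n (m - n) := by
  refine sum_bij' (fun n _ => n 0) (fun t _ => ![t, m - t]) ?_ ?_ ?_ ?_ ?_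
  · intro n hn
    rw [mem_Pai] at hn
    rw [mem_pa]
    have h0 := hn.1 0
    have h1 := hn.1 1
    omega
  · intro t ht
    rw [mem_pa] at ht
    rw [mem_Pai]
    refine ⟨fun r => ?_, ?_⟩
    · fin_cases r
      · show 1 ≤ t ∧ t ≤ m
        omega
      · show 1 ≤ m - t ∧ m - t ≤ m
        omega
    · show t + (m - t) = m
      omega
  · intro n hn
    rw [mem_Pai] at hn
    funext r
    fin_cases r
    · rfl
    · show m - n 0 = n 1
      omega
  · intro t _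
    rfl
  · intro n hn
    rw [mem_Pai] at hn
    congr 1
    omega

lemma Pai_card {X m : ℕ} (hm : m ≤ X) : (Pai m).card = (pa X m).card := by
  rw [card_eq_sum_ones, card_eq_sum_ones]
  exact Pai_sum hm (fun _ _ => 1)

lemma pai_one {X m : ℕ} (hm : m ≤ X) (r : Fin 2) (g : ℕ → ℝ) (hg : ∀ n, 0 ≤ g n) :
    ∑ n ∈ Pai m, g (n r) ≤ ∑ x ∈ Icc 1 X, g x := by
  classical
  have h1 : ∑ n ∈ Pai m, g (n r) = ∑ u ∈ (Pai m).image (fun n => n r), g u := by
    rw [sum_image]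
    intro n hn n' hn' e
    rw [mem_coe, mem_Pai] at hn hn'
    have h3 := hn.2
    have h4 := hn'.2
    funext s
    fin_cases r <;> fin_cases s <;> simp at e ⊢ <;> omega
  rw [h1]
  apply sum_le_sum_of_subset_of_nonneg _ (fun _ _ _ => hg _)
  intro u hu
  rw [mem_image] at hu
  obtain ⟨n, hn, rfl⟩ := hu
  rw [mem_Pai] at hn
  have := hn.1 r
  rw [mem_Icc]
  omega

/-- the number of the good pairs of classes -/
def loc2 {k : ℕ} (a h : Fin 2 → Fin k → ℕ) (P : Fin 2 → Finset (Fin (k + 1))) (m p : ℕ) : ℕ :=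
  ((Fintype.piFinset fun _ : Fin 2 => range p).filter (fun n => (n 0 + n 1) % p = m % p ∧
    ∀ r, ∀ i ∈ P r, ¬ p ∣ fm (a r) (h r) (n r) i)).card

lemma bad_b {k : ℕ} (a h : Fin 2 → Fin k → ℕ) (P : Fin 2 → Finset (Fin (k + 1))) (m p x y : ℕ)
    (hxy : (p : ℤ) ∣ (m : ℤ) - (x + y)) :
    bad (cb a) (db a h m) (Pb P) p x ↔ (∃ i ∈ P 0, p ∣ fm (a 0) (h 0) x i) ∨ ∃ i ∈ P 1, p ∣ fm (a 1) (h 1) y i := by
  unfold bad
  have h0 : ∀ i, ((p : ℤ) ∣ cb a (Sum.inl i) * x + db a h m (Sum.inl i) ↔ p ∣ fm (a 0) (h 0) x i) := by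
    intro i
    rw [fm_eq, ← Int.natCast_dvd_natCast]
    push_cast
    rfl
  have h1 : ∀ i, ((p : ℤ) ∣ cb a (Sum.inr i) * x + db a h m (Sum.inr i) ↔ p ∣ fm (a 1) (h 1) y i) := by
    intro i
    rw [fm_eq, ← Int.natCast_dvd_natCast]
    push_cast
    show (p : ℤ) ∣ -(cc (a 1) i : ℤ) * x + ((cc (a 1) i : ℤ) * m + dd (h 1) i) ↔ (p : ℤ) ∣ (cc (a 1) i : ℤ) * y + dd (h 1) i
    refine dvd_iff_dvd_of_dvd_sub ?_
    rw [show -(cc (a 1) i : ℤ) * x + ((cc (a 1) i : ℤ) * m + dd (h 1) i) - ((cc (a 1) i : ℤ) * y + dd (h 1) i) =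
      (cc (a 1) i : ℤ) * ((m : ℤ) - (x + y)) by ring]
    exact Dvd.dvd.mul_left hxy _
  constructor
  · rintro ⟨i | i, hi, hd⟩
    · exact Or.inl ⟨i, inl_mem_disjSum.1 hi, (h0 i).1 hd⟩
    · exact Or.inr ⟨i, inr_mem_disjSum.1 hi, (h1 i).1 hd⟩
  · rintro (⟨i, hi, hd⟩ | ⟨i, hi, hd⟩)
    · exact ⟨Sum.inl i, inl_mem_disjSum.2 hi, (h0 i).2 hd⟩
    · exact ⟨Sum.inr i, inr_mem_disjSum.2 hi, (h1 i).2 hd⟩

lemma loc2_nu1 {k : ℕ} (a h : Fin 2 → Fin k → ℕ) (P : Fin 2 → Finset (Fin (k + 1))) (m p : ℕ) (hp : p.Prime) :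
    nu1 (cb a) (db a h m) (Pb P) p + loc2 a h P m p = p := by
  classical
  have hp0 : 0 < p := hp.pos
  have hpZ : (0 : ℤ) < p := by exact_mod_cast hp0
  have h1 := card_filter_add_card_filter_not (s := range p) (fun x : ℕ => bad (cb a) (db a h m) (Pb P) p x)
  rw [card_range] at h1
  have h2 : nu1 (cb a) (db a h m) (Pb P) p = ((range p).filter (fun x : ℕ => bad (cb a) (db a h m) (Pb P) p x)).card := by
    unfold nu1
    congr 1
  have h3 : loc2 a h P m p = ((range p).filter (fun x : ℕ => ¬ bad (cb a) (db a h m) (Pb P) p x)).card := by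
    unfold loc2
    refine card_bij' (fun n _ => n 0) (fun t _ => ![t, (((m : ℤ) - t) % p).toNat]) ?_ ?_ ?_ ?_
    · intro n hn
      rw [mem_filter, Fintype.mem_piFinset] at hn
      obtain ⟨hr, hs, hg⟩ := hn
      rw [mem_filter]
      refine ⟨hr 0, ?_⟩
      have hcong : (p : ℤ) ∣ (m : ℤ) - (n 0 + n 1) := by
        have h4 : n 0 + n 1 ≡ m [MOD p] := hs
        have h5 := (Nat.modEq_iff_dvd.1 h4)
        push_cast at h5
        exact h5
      rw [bad_b a h P m p (n 0) (n 1) hcong]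
      push Not
      exact ⟨fun i hi => hg 0 i hi, fun i hi => hg 1 i hi⟩
    · intro t ht
      rw [mem_filter, mem_range] at ht
      have hw0 : 0 ≤ ((m : ℤ) - t) % p := Int.emod_nonneg _ hpZ.ne'
      have hw1 : ((m : ℤ) - t) % p < p := Int.emod_lt_of_pos _ hpZ
      set w : ℕ := (((m : ℤ) - t) % p).toNat with hw
      have hwZ : (w : ℤ) = ((m : ℤ) - t) % p := Int.toNat_of_nonneg hw0
      have hcong : (p : ℤ) ∣ (m : ℤ) - (t + w) := by
        rw [hwZ, show (m : ℤ) - (t + ((m : ℤ) - t) % p) = ((m : ℤ) - t) - ((m : ℤ) - t) % p by ring]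
        exact Int.dvd_self_sub_emod
      rw [mem_filter, Fintype.mem_piFinset]
      refine ⟨?_, ?_, ?_⟩
      · intro r
        rw [mem_range]
        fin_cases r
        · exact ht.1
        · show w < p
          omega
      · show (t + w) % p = m % p
        have h5 : t + w ≡ m [MOD p] := by
          rw [Nat.modEq_iff_dvd]
          push_cast
          exact hcong
        exact h5
      · have h6 := ht.2
        rw [bad_b a h P m p t w hcong] at h6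
        push Not at h6
        intro r
        fin_cases r
        · exact h6.1
        · exact h6.2
    · intro n hn
      rw [mem_filter, Fintype.mem_piFinset] at hn
      obtain ⟨hr, hs, hg⟩ := hn
      have h4 : n 0 + n 1 ≡ m [MOD p] := hs
      have h5 := (Nat.modEq_iff_dvd.1 h4)
      push_cast at h5
      funext r
      fin_cases r
      · rfl
      · show (((m : ℤ) - n 0) % p).toNat = n 1
        have h6 : ((m : ℤ) - n 0) % p = (n 1 : ℤ) % p := by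
          apply Int.ModEq.symm
          rw [Int.modEq_iff_dvd]
          rw [show ((m : ℤ) - n 0) - n 1 = m - (n 0 + n 1) by ring]
          exact h5
        have h7 : (n 1 : ℤ) % p = n 1 := by
          apply Int.emod_eq_of_lt (by positivity)
          exact_mod_cast mem_range.1 (hr 1)
        rw [h6, h7]
        simp
    · intro t _
      rfl
  rw [h2, h3]
  exact h1

/-- the singular series -/
noncomputable def Sing2 {k : ℕ} (X : ℕ) (a h : Fin 2 → Fin k → ℕ) (P : Fin 2 → Finset (Fin (k + 1))) (m : ℕ) : ℝ :=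
  ∏ p ∈ (Icc 1 X).filter Nat.Prime, ((loc2 a h P m p : ℝ) / p) / (1 - 1 / (p : ℝ)) ^ (∑ r, (P r).card)

lemma Sing2_eq {k : ℕ} (X : ℕ) (a h : Fin 2 → Fin k → ℕ) (P : Fin 2 → Finset (Fin (k + 1))) (m : ℕ) :
    Sing2 X a h P m = S1 (cb a) (db a h m) (Pb P) X := by
  unfold Sing2 S1 Sq
  refine prod_congr rfl fun p hp => ?_
  have hp := mem_pz.1 hp
  unfold Gq
  rw [nu2_Q1, Pb_card]
  have h1 := loc2_nu1 a h P m p hp.2
  have h2 : (nu1 (cb a) (db a h m) (Pb P) p : ℝ) + loc2 a h P m p = p := by exact_mod_cast h1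
  have hp0 : (0 : ℝ) < p := by exact_mod_cast hp.2.pos
  rw [Fin.sum_univ_two]
  congr 1
  push_cast
  rw [show (nu1 (cb a) (db a h m) (Pb P) p : ℝ) * p / (p : ℝ) ^ 2 = nu1 (cb a) (db a h m) (Pb P) p / (p : ℝ) by field_simp,
    eq_sub_iff_add_eq, ← add_div, div_eq_one_iff_eq hp0.ne']
  linarith

open Classical in
lemma W2 {k : ℕ} (a h : Fin 2 → Fin k → ℕ) (P Q : Fin 2 → Finset (Fin (k + 1))) (ε : Fin 2 → Fin (k + 1) → ℤ)
    (hε : ∀ r i, ε r i = 1 ∨ ε r i = -1) (n : Fin 2 → ℕ) :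
    ∏ r, W1 (a r) (h r) (P r) (Q r) (ε r) (n r) =
      (((2 : ℝ) ^ (∑ r, (Q r).card) * if (∀ r, ∀ i ∈ Q r, lam (fm (a r) (h r) (n r) i) = ε r i) then
        ∏ r, ∏ i ∈ P r, vM (fm (a r) (h r) (n r) i) else 0 : ℝ) : ℂ) := by
  have h1 : ∀ r, W1 (a r) (h r) (P r) (Q r) (ε r) (n r) = ((∏ i ∈ P r, vM (fm (a r) (h r) (n r) i) : ℝ) : ℂ) *
      (((if ∀ i ∈ Q r, lam (fm (a r) (h r) (n r) i) = ε r i then 2 ^ (Q r).card else 0 : ℤ)) : ℂ) := by
    intro r
    unfold W1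
    rw [sign_prod (Q r) (ε r) (fun i => lam (fm (a r) (h r) (n r) i)) (hε r) (fun i => lam_val _)]
  rw [prod_congr rfl fun r _ => h1 r, prod_mul_distrib]
  by_cases hh : ∀ r, ∀ i ∈ Q r, lam (fm (a r) (h r) (n r) i) = ε r i
  · rw [if_pos hh]
    have h2 : ∀ r ∈ (univ : Finset (Fin 2)), (((if ∀ i ∈ Q r, lam (fm (a r) (h r) (n r) i) = ε r i then 2 ^ (Q r).card else 0 : ℤ)) : ℂ) =
        2 ^ (Q r).card := by
      intro r _
      rw [if_pos (hh r)]
      push_cast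
      rfl
    rw [prod_congr rfl h2, prod_pow_eq_pow_sum]
    push_cast
    ring
  · rw [if_neg hh]
    push Not at hh
    obtain ⟨r, i, hi, hne⟩ := hh
    have h2 : ∏ r, (((if ∀ i ∈ Q r, lam (fm (a r) (h r) (n r) i) = ε r i then 2 ^ (Q r).card else 0 : ℤ)) : ℂ) = 0 := by
      refine prod_eq_zero (mem_univ r) ?_
      rw [if_neg]
      · simp
      · intro h3
        exact hne (h3 i hi)
    rw [h2]
    simp

open Classical in
theorem binP (k A K : ℕ) : ∃ c : ℝ, 0 < c ∧ ∃ X₀ : ℕ, ∀ X : ℕ, X₀ ≤ X → ∃ B ⊆ Bx k X, (B.card : ℝ) ≤ (X : ℝ) ^ k / Real.log X ^ A ∧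
      ∀ h : Fin 2 → Fin k → ℕ, (∀ r, h r ∈ Bx k X ∧ h r ∉ B) → ∀ a : Fin 2 → Fin k → ℕ,
        (∀ r i, 1 ≤ a r i ∧ (a r i : ℝ) ≤ Real.log X ^ K ∧ (a r i).Coprime (h r i)) →
        ∀ P Q : Fin 2 → Finset (Fin (k + 1)), (∀ r, Disjoint (P r) (Q r)) →
        ∀ ε : Fin 2 → Fin (k + 1) → ℤ, (∀ r i, ε r i = 1 ∨ ε r i = -1) →
        ∃ E ⊆ Icc 1 X, (E.card : ℝ) ≤ X / Real.log X ^ A ∧ ∀ m ∈ Icc 1 X, m ∉ E →
        |2 ^ (∑ r, (Q r).card) * ∑ n ∈ (Pai m).filter (fun n => ∀ r, ∀ i ∈ Q r, lam (fm (a r) (h r) (n r) i) = ε r i),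
            ∏ r, ∏ i ∈ P r, lp (fm (a r) (h r) (n r) i) - Sing2 X a h P m * (Pai m).card| ≤ X / Real.log X ^ A ∧
        ((∀ p : ℕ, p.Prime → 0 < loc2 a h P m p) → c ≤ Sing2 X a h P m) := by
  obtain ⟨X₁, h1⟩ := binary k (A + 1) K
  set D : ℕ := 2 * (k + 1) with hD
  obtain ⟨X₂, h2⟩ := hh_form k K (A + 1 + D)
  obtain ⟨X₃, h3⟩ := ev_log (K + 1) (2 ^ D * (2 ^ D * D) + 4)
  refine ⟨lowc D, lowc_pos D, max X₁ (max X₂ (max X₃ 4)), fun X hX => ?_⟩
  simp only [max_le_iff] at hX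
  obtain ⟨c1, c2, c3, c4⟩ := hX
  obtain ⟨hbig, hl⟩ := h3 X c3
  set l : ℝ := Real.log X with hldef
  have hM0 : (0 : ℝ) ≤ 2 ^ D * (2 ^ D * D) := by positivity
  have hl4 : 4 ≤ l := by linarith
  have hl1 : 1 ≤ l := by linarith
  have hl0 : 0 < l := by linarith
  have hX4 : (4 : ℝ) ≤ X := by exact_mod_cast c4
  have hXpos : (0 : ℝ) < X := by linarith
  obtain ⟨B, hB1, hB2, hB4⟩ := h1 X c1
  have hmono : (l : ℝ) ^ A ≤ l ^ (A + 1) := pow_le_pow_right₀ hl1 (by omega)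
  have hK2 : 2 * l ^ K ≤ X := by
    calc 2 * l ^ K ≤ l * l ^ K := by gcongr; linarith
      _ = l ^ (K + 1) := by rw [pow_succ]; ring
      _ ≤ X := hbig
  refine ⟨B, hB1, hB2.trans (by gcongr), fun h hh' a ha P Q hPQ ε hε => ?_⟩
  have hcop : ∀ r, ∀ i ∈ P r, (cc (a r) i).Coprime (dd (h r) i) := by
    intro r i _
    unfold cc dd
    refine Fin.cases ?_ (fun i => ?_) i
    · simp
    · simp only [Fin.cons_succ]
      exact (ha r i).2.2
  have ha' : ∀ r i, 1 ≤ a r i ∧ (a r i : ℝ) ≤ l ^ K := fun r i => ⟨(ha r i).1, (ha r i).2.1⟩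
  obtain ⟨E, hE1, hE2, hE3⟩ := hB4 h hh' a ha' P Q hPQ hcop ε hε
  refine ⟨E.filter (fun m => m ≤ X), ?_, ?_, fun m hm hmE => ⟨?_, ?_⟩⟩
  · intro m hm
    rw [mem_filter] at hm
    have := mem_Icc.1 (hE1 hm.1)
    rw [mem_Icc]
    omega
  · have : ((E.filter (fun m => m ≤ X)).card : ℝ) ≤ E.card := by exact_mod_cast card_filter_le _ _
    refine this.trans (hE2.trans ?_)
    gcongr
  · rw [mem_Icc] at hm
    have hmE' : m ∉ E := fun h5 => hmE (mem_filter.2 ⟨h5, hm.2⟩)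
    have key0 := hE3 m (mem_Icc.2 ⟨hm.1, by omega⟩) hmE'
    set S := (Pai m).filter (fun n => ∀ r, ∀ i ∈ Q r, lam (fm (a r) (h r) (n r) i) = ε r i) with hS
    have e0 : ∑ n ∈ pa X m, W1 (a 0) (h 0) (P 0) (Q 0) (ε 0) n * W1 (a 1) (h 1) (P 1) (Q 1) (ε 1) (m - n) =
        ((2 ^ (∑ r, (Q r).card) * ∑ n ∈ S, ∏ r, ∏ i ∈ P r, vM (fm (a r) (h r) (n r) i) : ℝ) : ℂ) := by
      rw [← Pai_sum hm.2 (fun x y => W1 (a 0) (h 0) (P 0) (Q 0) (ε 0) x * W1 (a 1) (h 1) (P 1) (Q 1) (ε 1) y), mul_sum,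
        hS, sum_filter, Complex.ofReal_sum]
      refine sum_congr rfl fun n _ => ?_
      have h6 := W2 a h P Q ε hε n
      rw [Fin.prod_univ_two] at h6
      rw [h6]
      congr 1
      split_ifs <;> simp
    have key : |2 ^ (∑ r, (Q r).card) * ∑ n ∈ S, ∏ r, ∏ i ∈ P r, vM (fm (a r) (h r) (n r) i) -
        Sing2 X a h P m * (Pai m).card| ≤ X / l ^ (A + 1) := by
      rw [e0, ← Sing2_eq, ← Pai_card hm.2, ← Complex.ofReal_sub, Complex.norm_real, Real.norm_eq_abs] at key0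
      exact key0
    -- the difference
    set P' : Finset ((_ : Fin 2) × Fin (k + 1)) := univ.sigma P with hP'
    have hcard : P'.card ≤ D := by
      rw [hP', card_sigma]
      have : ∀ r ∈ (univ : Finset (Fin 2)), (P r).card ≤ k + 1 := fun r _ => by simpa using card_le_univ (P r)
      refine (sum_le_sum this).trans ?_
      simp [hD]
    have hpt : ∀ n ∈ Pai m, |∏ r, ∏ i ∈ P r, vM (fm (a r) (h r) (n r) i) - ∏ r, ∏ i ∈ P r, lp (fm (a r) (h r) (n r) i)| ≤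
        (2 * l) ^ D * ∑ s ∈ P', hh (fm (a s.1) (h s.1) (n s.1) s.2) := by
      intro n hn
      rw [mem_Pai] at hn
      have e1 : ∏ r, ∏ i ∈ P r, vM (fm (a r) (h r) (n r) i) = ∏ s ∈ P', vM (fm (a s.1) (h s.1) (n s.1) s.2) := by
        rw [hP', prod_sigma]
      have e2 : ∏ r, ∏ i ∈ P r, lp (fm (a r) (h r) (n r) i) = ∏ s ∈ P', lp (fm (a s.1) (h s.1) (n s.1) s.2) := by
        rw [hP', prod_sigma]
      rw [e1, e2]
      obtain ⟨k1, k2⟩ := prod_diff P' (fun s => vM (fm (a s.1) (h s.1) (n s.1) s.2)) (fun s => lp (fm (a s.1) (h s.1) (n s.1) s.2))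
        (2 * l) (by linarith) (fun s _ => lp_nonneg _) (fun s _ => by
          have := vm_split (fm (a s.1) (h s.1) (n s.1) s.2)
          have h5 := hh_nonneg (fm (a s.1) (h s.1) (n s.1) s.2)
          unfold vM
          linarith) (fun s _ => (vM_fm hX4 hK2 (ha' s.1) (hh' s.1).1 (n s.1) (mem_Icc.2 (by
            have := hn.1 s.1
            omega)) s.2).2.2)
      rw [abs_of_nonneg k1]
      refine k2.trans ?_
      have e3 : ∀ s ∈ P', vM (fm (a s.1) (h s.1) (n s.1) s.2) - lp (fm (a s.1) (h s.1) (n s.1) s.2) =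
          hh (fm (a s.1) (h s.1) (n s.1) s.2) := by
        intro s _
        have := vm_split (fm (a s.1) (h s.1) (n s.1) s.2)
        unfold vM
        linarith
      rw [sum_congr rfl e3]
      have h5 : 0 ≤ ∑ s ∈ P', hh (fm (a s.1) (h s.1) (n s.1) s.2) := sum_nonneg fun _ _ => hh_nonneg _
      exact mul_le_mul_of_nonneg_right (pow_le_pow_right₀ (by linarith) hcard) h5
    have hdiff : |∑ n ∈ S, ∏ r, ∏ i ∈ P r, vM (fm (a r) (h r) (n r) i) - ∑ n ∈ S, ∏ r, ∏ i ∈ P r, lp (fm (a r) (h r) (n r) i)| ≤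
        (2 * l) ^ D * (D * (X / l ^ (A + 1 + D))) := by
      rw [← sum_sub_distrib]
      refine (abs_sum_le_sum_abs _ _).trans ?_
      calc ∑ n ∈ S, |∏ r, ∏ i ∈ P r, vM (fm (a r) (h r) (n r) i) - ∏ r, ∏ i ∈ P r, lp (fm (a r) (h r) (n r) i)| ≤
          ∑ n ∈ Pai m, |∏ r, ∏ i ∈ P r, vM (fm (a r) (h r) (n r) i) - ∏ r, ∏ i ∈ P r, lp (fm (a r) (h r) (n r) i)| :=
            sum_le_sum_of_subset_of_nonneg (filter_subset _ _) (fun _ _ _ => abs_nonneg _)
        _ ≤ ∑ n ∈ Pai m, (2 * l) ^ D * ∑ s ∈ P', hh (fm (a s.1) (h s.1) (n s.1) s.2) := sum_le_sum hpt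
        _ = (2 * l) ^ D * ∑ s ∈ P', ∑ n ∈ Pai m, hh (fm (a s.1) (h s.1) (n s.1) s.2) := by
            rw [← mul_sum, sum_comm]
        _ ≤ (2 * l) ^ D * ∑ s ∈ P', (X / l ^ (A + 1 + D)) := by
            gcongr with s hs
            refine (pai_one hm.2 s.1 (fun x => hh (fm (a s.1) (h s.1) x s.2)) (fun _ => hh_nonneg _)).trans ?_
            exact h2 X c2 (h s.1) (hh' s.1).1 (a s.1) (ha' s.1) s.2
        _ ≤ _ := by
            rw [sum_const, nsmul_eq_mul]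
            have : (P'.card : ℝ) ≤ D := by exact_mod_cast hcard
            gcongr
    have hQc : (2 : ℝ) ^ (∑ r, (Q r).card) ≤ 2 ^ D := by
      apply pow_le_pow_right₀ (by norm_num)
      have : ∀ r ∈ (univ : Finset (Fin 2)), (Q r).card ≤ k + 1 := fun r _ => by simpa using card_le_univ (Q r)
      refine (sum_le_sum this).trans ?_
      simp [hD]
    have e4 : 2 ^ D * ((2 * l) ^ D * (D * (X / l ^ (A + 1 + D)))) ≤ (l - 1) * (X / l ^ (A + 1)) := by
      have e5 : 2 ^ D * ((2 * l) ^ D * (D * (X / l ^ (A + 1 + D)))) = (2 ^ D * (2 ^ D * D)) * (X / l ^ (A + 1)) := by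
        rw [pow_add l (A + 1) D, mul_pow]
        field_simp
      rw [e5]
      gcongr
      linarith
    have e6 : 2 ^ (∑ r, (Q r).card) * ∑ n ∈ S, ∏ r, ∏ i ∈ P r, lp (fm (a r) (h r) (n r) i) - Sing2 X a h P m * (Pai m).card =
        (2 ^ (∑ r, (Q r).card) * ∑ n ∈ S, ∏ r, ∏ i ∈ P r, vM (fm (a r) (h r) (n r) i) - Sing2 X a h P m * (Pai m).card) -
        2 ^ (∑ r, (Q r).card) * (∑ n ∈ S, ∏ r, ∏ i ∈ P r, vM (fm (a r) (h r) (n r) i) - ∑ n ∈ S, ∏ r, ∏ i ∈ P r, lp (fm (a r) (h r) (n r) i)) := by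
      ring
    rw [e6]
    refine (abs_sub _ _).trans ?_
    rw [abs_mul, abs_of_nonneg (by positivity : (0 : ℝ) ≤ 2 ^ (∑ r, (Q r).card))]
    calc _ ≤ X / l ^ (A + 1) + 2 ^ D * ((2 * l) ^ D * (D * (X / l ^ (A + 1 + D)))) := by
          refine add_le_add key ?_
          exact mul_le_mul hQc hdiff (abs_nonneg _) (by positivity)
      _ ≤ X / l ^ (A + 1) + (l - 1) * (X / l ^ (A + 1)) := by linarith
      _ = X / l ^ A := by rw [pow_succ]; field_simp; ring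
  · intro hloc
    rw [Sing2_eq]
    have hκ : (Pb P).card ≤ D := by
      rw [Pb_card]
      have : ∀ r, (P r).card ≤ k + 1 := fun r => by simpa using card_le_univ (P r)
      have := this 0
      have := ‹∀ r, (P r).card ≤ k + 1› 1
      omega
    refine (lowc_anti hκ).trans (S1_lower _ _ _ ?_ (fun p hp _ => ?_) X)
    · rintro (i | i) hi
      · have hi' : i ∈ P 0 := inl_mem_disjSum.1 hi
        have := hcop 0 i hi'
        show IsCoprime ((cc (a 0) i : ℤ)) ((dd (h 0) i : ℤ))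
        exact Nat.isCoprime_iff_coprime.2 this
      · have hi' : i ∈ P 1 := inr_mem_disjSum.1 hi
        have := hcop 1 i hi'
        show IsCoprime (-(cc (a 1) i : ℤ)) ((cc (a 1) i : ℤ) * m + dd (h 1) i)
        have h5 : IsCoprime ((cc (a 1) i : ℤ)) ((dd (h 1) i : ℤ)) := Nat.isCoprime_iff_coprime.2 this
        have h6 := (IsCoprime.neg_left_iff _ _).2 h5
        have h7 := (IsCoprime.add_mul_left_right_iff (x := -(cc (a 1) i : ℤ)) (y := (dd (h 1) i : ℤ)) (z := -(m : ℤ))).2 h6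
        rw [show (cc (a 1) i : ℤ) * m + dd (h 1) i = (dd (h 1) i : ℤ) + -(cc (a 1) i : ℤ) * -(m : ℤ) by ring]
        exact h7
    · have h5 := hloc p hp
      unfold loc2 at h5
      obtain ⟨n, hn⟩ := card_pos.1 h5
      rw [mem_filter, Fintype.mem_piFinset] at hn
      obtain ⟨hr, hs, hg⟩ := hn
      refine ⟨n 0, ?_⟩
      have hcong : (p : ℤ) ∣ (m : ℤ) - (n 0 + n 1) := by
        have h4 : n 0 + n 1 ≡ m [MOD p] := hs
        have h5 := (Nat.modEq_iff_dvd.1 h4)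
        push_cast at h5
        exact h5
      rw [bad_b a h P m p (n 0) (n 1) hcong]
      push Not
      exact ⟨fun i hi => hg 0 i hi, fun i hi => hg 1 i hi⟩

end Pool.Agent.H76.PB
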