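import Pool.Agent.H76.PT.Main

set_option autoImplicit false

/-!
Linear forms in one variable with integer coefficients: the sieve and the singular series.
-/

namespace Pool.Agent.H76.PB

open Finset
open Pool.Agent.E8helper77.GB (ev_log)
open Pool.Agent.H373R2.T7 (pz mem_pz Vz Vz_pos lamz lamz_nonneg Vz_inv_small)
open Pool.Agent.H76.VG (nu2 Per2 nu2_le fund2 Conv card_pf)
open Pool.Agent.H76.PT (Gq Sq Sq_eq Sq_near Sq_upper Sq_lower Sq_nonneg cs lowc lowc_pos)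

variable {ι : Type}

/-- one of the forms is divisible by `p` -/
def bad (c d : ι → ℤ) (P : Finset ι) (p : ℕ) (n : ℤ) : Prop := ∃ i ∈ P, (p : ℤ) ∣ c i * n + d i

lemma bad_congr (c d : ι → ℤ) (P : Finset ι) (p : ℕ) (n n' : ℤ) (h : (p : ℤ) ∣ n - n') :
    bad c d P p n ↔ bad c d P p n' := by
  unfold bad
  have : ∀ i, ((p : ℤ) ∣ c i * n + d i ↔ (p : ℤ) ∣ c i * n' + d i) := by
    intro i
    refine dvd_iff_dvd_of_dvd_sub ?_
    rw [show (c i * n + d i : ℤ) - (c i * n' + d i) = c i * (n - n') by ring]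
    exact Dvd.dvd.mul_left h _
  simp only [this]

/-- the local conditions, with a dummy variable -/
def Q1 (c d : ι → ℤ) (P : Finset ι) (p x _y : ℕ) : Prop := bad c d P p x

open Classical in
/-- the number of bad classes -/
noncomputable def nu1 (c d : ι → ℤ) (P : Finset ι) (p : ℕ) : ℕ := ((range p).filter (fun x : ℕ => bad c d P p x)).card

lemma nu2_Q1 (c d : ι → ℤ) (P : Finset ι) (p : ℕ) : nu2 (Q1 c d P) p = nu1 c d P p * p := by
  classical
  have h2 : nu2 (Q1 c d P) p = ((range p ×ˢ range p).filter (fun t : ℕ × ℕ => Q1 c d P p t.1 t.2)).card := by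
    unfold nu2
    congr 1
  have h1 : nu1 c d P p = ((range p).filter (fun x : ℕ => bad c d P p x)).card := by
    unfold nu1
    congr 1
  have h3 : (range p ×ˢ range p).filter (fun t : ℕ × ℕ => Q1 c d P p t.1 t.2) =
      ((range p).filter (fun x : ℕ => bad c d P p x)) ×ˢ range p := by
    ext ⟨x, y⟩
    rw [mem_filter, mem_product, mem_product, mem_filter]
    dsimp only [Q1]
    tauto
  rw [h2, h3, card_product, card_range, h1]

lemma nu1_le (c d : ι → ℤ) (P : Finset ι) (p : ℕ) (hp : p.Prime) (hcop : ∀ i ∈ P, IsCoprime (c i) (d i)) :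
    nu1 c d P p ≤ P.card := by
  classical
  have := Fact.mk hp
  have h1 : nu1 c d P p = ((range p).filter (fun x : ℕ => bad c d P p x)).card := by
    unfold nu1
    congr 1
  rw [h1]
  have h2 : (range p).filter (fun x : ℕ => bad c d P p x) ⊆
      P.biUnion (fun i => (range p).filter (fun x : ℕ => (p : ℤ) ∣ c i * x + d i)) := by
    intro x hx
    rw [mem_filter] at hx
    obtain ⟨i, hi, h⟩ := hx.2
    rw [mem_biUnion]
    exact ⟨i, hi, mem_filter.2 ⟨hx.1, h⟩⟩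
  refine (card_le_card h2).trans (card_biUnion_le.trans ?_)
  have h3 : ∀ i ∈ P, ((range p).filter (fun x : ℕ => (p : ℤ) ∣ c i * x + d i)).card ≤ 1 := by
    intro i hi
    rw [card_le_one]
    intro x hx y hy
    rw [mem_filter, mem_range] at hx hy
    have hpp : Prime (p : ℤ) := Nat.prime_iff_prime_int.1 hp
    have h4 : (p : ℤ) ∣ c i * ((x : ℤ) - y) := by
      have := dvd_sub hx.2 hy.2
      rwa [show (c i * (x : ℤ) + d i) - (c i * y + d i) = c i * ((x : ℤ) - y) by ring] at this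
    rcases hpp.dvd_mul.1 h4 with h5 | h5
    · exfalso
      have h6 : (p : ℤ) ∣ d i := (Int.dvd_add_right (Dvd.dvd.mul_right h5 _)).1 hx.2
      have h7 := (hcop i hi).isUnit_of_dvd' h5 h6
      exact hpp.not_isUnit h7
    · have h6 : (x : ℤ) ≡ y [ZMOD p] := (Int.modEq_iff_dvd.2 (by
        have := dvd_neg.2 h5
        rwa [neg_sub] at this))
      have h7 : x ≡ y [MOD p] := (Int.natCast_modEq_iff).1 h6
      exact Nat.ModEq.eq_of_lt_of_lt h7 hx.1 hy.1
  refine (sum_le_sum h3).trans ?_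
  simp

lemma nu1_eq (c d : ι → ℤ) (P : Finset ι) (p : ℕ) (hp : p.Prime)
    (h0 : ∀ i ∈ P, ¬ (p : ℤ) ∣ c i) (h1 : ∀ i ∈ P, ∀ j ∈ P, i ≠ j → ¬ (p : ℤ) ∣ c i * d j - c j * d i) :
    P.card ≤ nu1 c d P p := by
  classical
  have := Fact.mk hp
  have h2 : nu1 c d P p = ((range p).filter (fun x : ℕ => bad c d P p x)).card := by
    unfold nu1
    congr 1
  rw [h2]
  have hc : ∀ i ∈ P, (c i : ZMod p) ≠ 0 := fun i hi h => h0 i hi ((ZMod.intCast_zmod_eq_zero_iff_dvd _ _).1 h)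
  refine card_le_card_of_injOn (fun i => (-(d i : ZMod p) * (c i : ZMod p)⁻¹).val) ?_ ?_
  · intro i hi
    rw [mem_coe] at hi
    rw [mem_coe, mem_filter, mem_range]
    refine ⟨ZMod.val_lt _, i, hi, ?_⟩
    rw [← ZMod.intCast_zmod_eq_zero_iff_dvd]
    push_cast
    rw [ZMod.natCast_zmod_val]
    have := hc i hi
    field_simp
    ring
  · intro i hi j hj h
    rw [mem_coe] at hi hj
    by_contra hij
    apply h1 i hi j hj hij
    have h3 := ZMod.val_injective p h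
    rw [← ZMod.intCast_zmod_eq_zero_iff_dvd]
    push_cast
    have h4 := hc i hi
    have h5 := hc j hj
    field_simp at h3
    linear_combination h3

lemma Q1_Per2 (c d : ι → ℤ) (P : Finset ι) (κ : ℕ) (hκ : P.card ≤ κ) (hcop : ∀ i ∈ P, IsCoprime (c i) (d i)) :
    Per2 (Q1 c d P) κ := by
  refine ⟨fun p x y => ?_, fun p hp => ?_⟩
  · unfold Q1
    refine bad_congr c d P p _ _ ?_
    rw [← Nat.modEq_iff_dvd]
    exact Nat.mod_modEq x p
  · rw [nu2_Q1]
    exact Nat.mul_le_mul_right _ ((nu1_le c d P p hp hcop).trans hκ)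

lemma box_conv (X u v : ℕ) (hv : v ≤ X) : Conv (Icc (u + 1) v ×ˢ Icc 1 X) X := by
  refine ⟨?_, ?_, ?_⟩
  · rintro ⟨a, b⟩ h
    rw [mem_product, mem_Icc, mem_Icc] at h
    rw [mem_product, mem_Icc, mem_Icc]
    dsimp only at h ⊢
    omega
  · intro a
    by_cases ha : u + 1 ≤ a ∧ a ≤ v
    · refine ⟨0, X + 1, fun b => ?_⟩
      rw [mem_product, mem_Icc, mem_Icc, mem_Ioo]
      dsimp only
      omega
    · refine ⟨0, 0, fun b => ?_⟩
      rw [mem_product, mem_Icc, mem_Icc, mem_Ioo]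
      dsimp only
      omega
  · intro b
    by_cases hb : 1 ≤ b ∧ b ≤ X
    · refine ⟨u, v + 1, fun a => ?_⟩
      rw [mem_product, mem_Icc, mem_Icc, mem_Ioo]
      dsimp only
      omega
    · refine ⟨0, 0, fun a => ?_⟩
      rw [mem_product, mem_Icc, mem_Icc, mem_Ioo]
      dsimp only
      omega

open Classical in
/-- the sieve in one variable -/
theorem fund1 (κ A E : ℕ) : ∃ X₀ : ℕ, ∀ X : ℕ, X₀ ≤ X → ∀ z : ℕ, Real.log X ≤ z → (z : ℝ) ≤ Real.log X ^ E →
    ∀ (ι : Type) (c d : ι → ℤ) (P : Finset ι), P.card ≤ κ → (∀ i ∈ P, IsCoprime (c i) (d i)) →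
    ∀ u v : ℕ, v ≤ X →
    |(((Icc (u + 1) v).filter (fun n : ℕ => ∀ p ∈ pz z, ¬ bad c d P p n)).card : ℝ) -
        ((Icc (u + 1) v).card : ℝ) * ∏ p ∈ pz z, (1 - (nu2 (Q1 c d P) p : ℝ) / p ^ 2)| ≤ X / Real.log X ^ A := by
  obtain ⟨X₀, h0⟩ := fund2 κ A E
  refine ⟨max X₀ 1, fun X hX z hz1 hz2 ι c d P hκ hcop u v hv => ?_⟩
  have hX0 : (0 : ℝ) < X := by
    have : 0 < X := (le_max_right _ _).trans hX
    exact_mod_cast this
  have key := h0 X ((le_max_left _ _).trans hX) z hz1 hz2 (Q1 c d P) (Q1_Per2 c d P κ hκ hcop)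
    (Icc (u + 1) v ×ˢ Icc 1 X) (box_conv X u v hv)
  have e1 : (Icc (u + 1) v ×ˢ Icc 1 X).filter (fun t : ℕ × ℕ => ∀ p ∈ pz z, ¬ Q1 c d P p t.1 t.2) =
      ((Icc (u + 1) v).filter (fun n : ℕ => ∀ p ∈ pz z, ¬ bad c d P p n)) ×ˢ Icc 1 X := by
    ext ⟨x, y⟩
    rw [mem_filter, mem_product, mem_product, mem_filter]
    dsimp only [Q1]
    tauto
  have e2 : ((((Icc (u + 1) v).filter (fun n : ℕ => ∀ p ∈ pz z, ¬ bad c d P p n)) ×ˢ Icc 1 X).card : ℝ) =
      (((Icc (u + 1) v).filter (fun n : ℕ => ∀ p ∈ pz z, ¬ bad c d P p n)).card : ℝ) * X := by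
    rw [card_product, Nat.card_Icc 1 X, Nat.add_sub_cancel]
    push_cast
    rfl
  have e3 : ((Icc (u + 1) v ×ˢ Icc 1 X).card : ℝ) = ((Icc (u + 1) v).card : ℝ) * X := by
    rw [card_product, Nat.card_Icc 1 X, Nat.add_sub_cancel]
    push_cast
    rfl
  rw [e1, e2, e3] at key
  rw [show (((Icc (u + 1) v).filter (fun n : ℕ => ∀ p ∈ pz z, ¬ bad c d P p n)).card : ℝ) * X -
      ((Icc (u + 1) v).card : ℝ) * X * ∏ p ∈ pz z, (1 - (nu2 (Q1 c d P) p : ℝ) / p ^ 2) =
      ((((Icc (u + 1) v).filter (fun n : ℕ => ∀ p ∈ pz z, ¬ bad c d P p n)).card : ℝ) -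
        ((Icc (u + 1) v).card : ℝ) * ∏ p ∈ pz z, (1 - (nu2 (Q1 c d P) p : ℝ) / p ^ 2)) * X by ring, abs_mul,
    abs_of_pos hX0] at key
  have e4 : (X : ℝ) ^ 2 / Real.log X ^ A = (X / Real.log X ^ A) * X := by ring
  rw [e4] at key
  exact le_of_mul_le_mul_right key hX0

end Pool.Agent.H76.PB
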