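import Pool.Agent.H76.PB.Pr

set_option autoImplicit false

/-!
The ternary theorem for primes.
-/

namespace Pool.Agent.H76.PB

open Finset
open Pool.Agent.E8helper77.GB (ev_log)
open Pool.Agent.H76.MU (Bx mem_Bx lam)
open Pool.Agent.H76.PT
open Pool.Agent.H76.VG (nu2 hh hh_nonneg hh_sum lp vm_split lp_nonneg)

open Classical in
theorem ternP (k A K : ℕ) : ∃ c : ℝ, 0 < c ∧ ∃ X₀ : ℕ, ∀ X : ℕ, X₀ ≤ X → ∃ B ⊆ Bx k X, (B.card : ℝ) ≤ (X : ℝ) ^ k / Real.log X ^ A ∧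
      (∀ h : Fin 3 → Fin k → ℕ, (∀ r, h r ∈ Bx k X ∧ h r ∉ B) → ∀ a : Fin 3 → Fin k → ℕ,
        (∀ r i, 1 ≤ a r i ∧ (a r i : ℝ) ≤ Real.log X ^ K ∧ (a r i).Coprime (h r i)) →
        ∀ P Q : Fin 3 → Finset (Fin (k + 1)), (∀ r, Disjoint (P r) (Q r)) →
        ∀ ε : Fin 3 → Fin (k + 1) → ℤ, (∀ r i, ε r i = 1 ∨ ε r i = -1) → ∀ m : ℕ,
        |2 ^ (∑ r, (Q r).card) * ∑ n ∈ (Tri X m).filter (fun n => ∀ r, ∀ i ∈ Q r, lam (fm (a r) (h r) (n r) i) = ε r i),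
            ∏ r, ∏ i ∈ P r, lp (fm (a r) (h r) (n r) i) - Sing X a h P m * (Tri X m).card| ≤ (X : ℝ) ^ 2 / Real.log X ^ A ∧
        ((∀ p : ℕ, p.Prime → 0 < locN a h P m p) → c ≤ Sing X a h P m)) := by
  obtain ⟨X₁, h1⟩ := ternary k (A + 1) K
  set D : ℕ := 3 * (k + 1) with hD
  obtain ⟨X₂, h2⟩ := hh_form k K (A + 1 + D)
  obtain ⟨X₃, h3⟩ := ev_log (K + 1) (2 ^ D * (2 ^ D * D) + 4)
  refine ⟨lowc D, lowc_pos D, max X₁ (max X₂ (max X₃ 4)), fun X hX => ?_⟩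
  simp only [max_le_iff] at hX
  obtain ⟨c1, c2, c3, c4⟩ := hX
  obtain ⟨hbig, hl⟩ := h3 X c3
  set l : ℝ := Real.log X with hldef
  have hM0 : (0 : ℝ) ≤ 2 ^ D * (2 ^ D * D) := by positivity
  have hl4 : 4 ≤ l := by linarith
  have hl1 : 1 ≤ l := by linarith
  have hl0 : 0 < l := by linarith
  have hX4 : (4 : ℝ) ≤ X := by exact_mod_cast c4
  have hXpos : (0 : ℝ) < X := by linarith
  obtain ⟨B, hB1, hB2, _, hB4⟩ := h1 X c1
  have hmono : (l : ℝ) ^ A ≤ l ^ (A + 1) := pow_le_pow_right₀ hl1 (by omega)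
  have hK2 : 2 * l ^ K ≤ X := by
    calc 2 * l ^ K ≤ l * l ^ K := by gcongr; linarith
      _ = l ^ (K + 1) := by rw [pow_succ]; ring
      _ ≤ X := hbig
  refine ⟨B, hB1, hB2.trans (by gcongr), fun h hh' a ha P Q hPQ ε hε m => ⟨?_, ?_⟩⟩
  · have key := hB4 h hh' a ha P Q hPQ ε hε m
    set S := (Tri X m).filter (fun n => ∀ r, ∀ i ∈ Q r, lam (fm (a r) (h r) (n r) i) = ε r i) with hS
    -- the difference
    have ha' : ∀ r i, 1 ≤ a r i ∧ (a r i : ℝ) ≤ l ^ K := fun r i => ⟨(ha r i).1, (ha r i).2.1⟩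
    set P' : Finset ((_ : Fin 3) × Fin (k + 1)) := univ.sigma P with hP'
    have hcard : P'.card ≤ D := by
      rw [hP', card_sigma]
      have : ∀ r ∈ (univ : Finset (Fin 3)), (P r).card ≤ k + 1 := fun r _ => by simpa using card_le_univ (P r)
      refine (sum_le_sum this).trans ?_
      simp [hD]
    have hpt : ∀ n ∈ Tri X m, |∏ r, ∏ i ∈ P r, vM (fm (a r) (h r) (n r) i) - ∏ r, ∏ i ∈ P r, lp (fm (a r) (h r) (n r) i)| ≤
        (2 * l) ^ D * ∑ s ∈ P', hh (fm (a s.1) (h s.1) (n s.1) s.2) := by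
      intro n hn
      rw [mem_Tri] at hn
      have e1 : ∏ r, ∏ i ∈ P r, vM (fm (a r) (h r) (n r) i) = ∏ s ∈ P', vM (fm (a s.1) (h s.1) (n s.1) s.2) := by
        rw [hP', prod_sigma]
      have e2 : ∏ r, ∏ i ∈ P r, lp (fm (a r) (h r) (n r) i) = ∏ s ∈ P', lp (fm (a s.1) (h s.1) (n s.1) s.2) := by
        rw [hP', prod_sigma]
      rw [e1, e2]
      obtain ⟨k1, k2⟩ := prod_diff P' (fun s => vM (fm (a s.1) (h s.1) (n s.1) s.2)) (fun s => lp (fm (a s.1) (h s.1) (n s.1) s.2))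
        (2 * l) (by linarith) (fun s _ => lp_nonneg _) (fun s _ => by
          have := vm_split (fm (a s.1) (h s.1) (n s.1) s.2)
          have h5 := hh_nonneg (fm (a s.1) (h s.1) (n s.1) s.2)
          unfold vM
          linarith) (fun s _ => (vM_fm hX4 hK2 (ha' s.1) (hh' s.1).1 (n s.1) (mem_Icc.2 (hn.1 s.1)) s.2).2.2)
      rw [abs_of_nonneg k1]
      refine k2.trans ?_
      have e3 : ∀ s ∈ P', vM (fm (a s.1) (h s.1) (n s.1) s.2) - lp (fm (a s.1) (h s.1) (n s.1) s.2) =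
          hh (fm (a s.1) (h s.1) (n s.1) s.2) := by
        intro s _
        have := vm_split (fm (a s.1) (h s.1) (n s.1) s.2)
        unfold vM
        linarith
      rw [sum_congr rfl e3]
      have h5 : 0 ≤ ∑ s ∈ P', hh (fm (a s.1) (h s.1) (n s.1) s.2) := sum_nonneg fun _ _ => hh_nonneg _
      exact mul_le_mul_of_nonneg_right (pow_le_pow_right₀ (by linarith) hcard) h5
    have hdiff : |∑ n ∈ S, ∏ r, ∏ i ∈ P r, vM (fm (a r) (h r) (n r) i) - ∑ n ∈ S, ∏ r, ∏ i ∈ P r, lp (fm (a r) (h r) (n r) i)| ≤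
        (2 * l) ^ D * (D * (X * (X / l ^ (A + 1 + D)))) := by
      rw [← sum_sub_distrib]
      refine (abs_sum_le_sum_abs _ _).trans ?_
      calc ∑ n ∈ S, |∏ r, ∏ i ∈ P r, vM (fm (a r) (h r) (n r) i) - ∏ r, ∏ i ∈ P r, lp (fm (a r) (h r) (n r) i)| ≤
          ∑ n ∈ Tri X m, |∏ r, ∏ i ∈ P r, vM (fm (a r) (h r) (n r) i) - ∏ r, ∏ i ∈ P r, lp (fm (a r) (h r) (n r) i)| :=
            sum_le_sum_of_subset_of_nonneg (filter_subset _ _) (fun _ _ _ => abs_nonneg _)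
        _ ≤ ∑ n ∈ Tri X m, (2 * l) ^ D * ∑ s ∈ P', hh (fm (a s.1) (h s.1) (n s.1) s.2) := sum_le_sum hpt
        _ = (2 * l) ^ D * ∑ s ∈ P', ∑ n ∈ Tri X m, hh (fm (a s.1) (h s.1) (n s.1) s.2) := by
            rw [← mul_sum, sum_comm]
        _ ≤ (2 * l) ^ D * ∑ s ∈ P', (X * (X / l ^ (A + 1 + D))) := by
            gcongr with s hs
            refine (tri_one X m s.1 (fun x => hh (fm (a s.1) (h s.1) x s.2)) (fun _ => hh_nonneg _)).trans ?_
            exact mul_le_mul_of_nonneg_left (h2 X c2 (h s.1) (hh' s.1).1 (a s.1) (ha' s.1) s.2) hXpos.le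
        _ ≤ _ := by
            rw [sum_const, nsmul_eq_mul]
            have : (P'.card : ℝ) ≤ D := by exact_mod_cast hcard
            gcongr
    have hQc : (2 : ℝ) ^ (∑ r, (Q r).card) ≤ 2 ^ D := by
      apply pow_le_pow_right₀ (by norm_num)
      have : ∀ r ∈ (univ : Finset (Fin 3)), (Q r).card ≤ k + 1 := fun r _ => by simpa using card_le_univ (Q r)
      refine (sum_le_sum this).trans ?_
      simp [hD]
    have e4 : 2 ^ D * ((2 * l) ^ D * (D * (X * (X / l ^ (A + 1 + D))))) ≤ (l - 1) * (X ^ 2 / l ^ (A + 1)) := by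
      have e5 : 2 ^ D * ((2 * l) ^ D * (D * (X * (X / l ^ (A + 1 + D))))) = (2 ^ D * (2 ^ D * D)) * (X ^ 2 / l ^ (A + 1)) := by
        rw [pow_add l (A + 1) D, mul_pow]
        field_simp
      rw [e5]
      gcongr
      linarith
    have e6 : 2 ^ (∑ r, (Q r).card) * ∑ n ∈ S, ∏ r, ∏ i ∈ P r, lp (fm (a r) (h r) (n r) i) - Sing X a h P m * (Tri X m).card =
        (2 ^ (∑ r, (Q r).card) * ∑ n ∈ S, ∏ r, ∏ i ∈ P r, vM (fm (a r) (h r) (n r) i) - Sing X a h P m * (Tri X m).card) -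
        2 ^ (∑ r, (Q r).card) * (∑ n ∈ S, ∏ r, ∏ i ∈ P r, vM (fm (a r) (h r) (n r) i) - ∑ n ∈ S, ∏ r, ∏ i ∈ P r, lp (fm (a r) (h r) (n r) i)) := by
      ring
    rw [e6]
    refine (abs_sub _ _).trans ?_
    rw [abs_mul, abs_of_nonneg (by positivity : (0 : ℝ) ≤ 2 ^ (∑ r, (Q r).card))]
    calc _ ≤ X ^ 2 / l ^ (A + 1) + 2 ^ D * ((2 * l) ^ D * (D * (X * (X / l ^ (A + 1 + D))))) := by
          refine add_le_add key ?_
          exact mul_le_mul hQc hdiff (abs_nonneg _) (by positivity)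
      _ ≤ X ^ 2 / l ^ (A + 1) + (l - 1) * (X ^ 2 / l ^ (A + 1)) := by linarith
      _ = X ^ 2 / l ^ A := by rw [pow_succ]; field_simp; ring
  · intro hloc
    rw [Sing_eq]
    have hκ : kap P ≤ D := by
      unfold kap
      have : ∀ r, (P r).card ≤ k + 1 := fun r => by simpa using card_le_univ (P r)
      have := this 0
      have := ‹∀ r, (P r).card ≤ k + 1› 1
      have := ‹∀ r, (P r).card ≤ k + 1› 2
      omega
    refine (lowc_anti hκ).trans (Sq_lower (fun p hp => nu2_upper _ _ P m p hp ?_) (fun p hp _ => ?_) X)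
    · intro r i _
      unfold cc dd
      refine Fin.cases ?_ (fun i => ?_) i
      · simp
      · simp only [Fin.cons_succ]
        exact (ha r i).2.2
    · have h5 := loc_nu2 a h P m p hp
      have h6 := hloc p hp
      omega

end Pool.Agent.H76.PB
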